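import Mathlib

/-!
# Cyclic orderings of edge-disjoint spanning trees: removing vertices of small degree

Trees by cuts: `Tr ends S F` says that the edges in `F` have their ends in `S`, cross every proper cut of
`S`, and that there are `|S| - 1` of them.
-/

set_option autoImplicit false

namespace Pool.Agent.helper57.FLD

open Finset

variable {V E : Type*} [DecidableEq V] [DecidableEq E]

/-- the edge `e` joins a vertex of `A` to a vertex outside of `A` -/
def Cr (ends : E → Sym2 V) (A : Finset V) (e : E) : Prop := ∃ x y, ends e = s(x, y) ∧ x ∈ A ∧ y ∉ A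

/-- `F` is the edge set of a tree on `S` -/
structure Tr (ends : E → Sym2 V) (S : Finset V) (F : Finset E) : Prop where
  ins : ∀ e ∈ F, ∀ x ∈ ends e, x ∈ S
  con : ∀ A ⊆ S, A.Nonempty → A ≠ S → ∃ e ∈ F, Cr ends A e
  card : F.card + 1 = S.card

omit [DecidableEq V] [DecidableEq E] in
lemma cr_mk {ends : E → Sym2 V} {A : Finset V} {e : E} {p q : V} (h : ends e = s(p, q)) :
    Cr ends A e ↔ (p ∈ A ∧ q ∉ A) ∨ (q ∈ A ∧ p ∉ A) := by
  constructor
  · rintro ⟨x, y, hxy, hx, hy⟩
    rw [h] at hxy
    rcases Sym2.eq_iff.1 hxy with ⟨rfl, rfl⟩ | ⟨rfl, rfl⟩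
    · exact Or.inl ⟨hx, hy⟩
    · exact Or.inr ⟨hx, hy⟩
  · rintro (⟨h1, h2⟩ | ⟨h1, h2⟩)
    · exact ⟨p, q, h, h1, h2⟩
    · exact ⟨q, p, by rw [h, Sym2.eq_swap], h1, h2⟩

/-- a connected graph on `S` has at least `|S| - 1` edges -/
lemma cnt {ends : E → Sym2 V} {S : Finset V} {F : Finset E} (hS : S.Nonempty)
    (ins : ∀ e ∈ F, ∀ x ∈ ends e, x ∈ S)
    (con : ∀ A ⊆ S, A.Nonempty → A ≠ S → ∃ e ∈ F, Cr ends A e) : S.card ≤ F.card + 1 := by
  have key : ∀ k, k + 1 ≤ S.card → ∃ A ⊆ S, ∃ F' ⊆ F, A.card = k + 1 ∧ F'.card = k ∧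
      ∀ e ∈ F', ∀ x ∈ ends e, x ∈ A := by
    intro k
    induction k with
    | zero =>
      intro _
      obtain ⟨s, hs⟩ := hS
      exact ⟨{s}, by simpa using hs, ∅, by simp, by simp, by simp, by simp⟩
    | succ k ih =>
      intro hk
      obtain ⟨A, hA, F', hF', hAc, hFc, hin⟩ := ih (by omega)
      obtain ⟨e, he, x, y, hxy, hx, hy⟩ := con A hA (card_pos.1 (by omega)) (fun h => by subst h; omega)
      have hyS : y ∈ S := ins e he y (by rw [hxy]; exact Sym2.mem_mk_right x y)
      have heF : e ∉ F' := fun h => hy (hin e h y (by rw [hxy]; exact Sym2.mem_mk_right x y))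
      refine ⟨insert y A, insert_subset hyS hA, insert e F', insert_subset he hF', ?_, ?_, ?_⟩
      · rw [card_insert_of_notMem hy, hAc]
      · rw [card_insert_of_notMem heF, hFc]
      · intro f hf z hz
        rcases mem_insert.1 hf with rfl | hf
        · rw [hxy] at hz
          rcases Sym2.mem_iff.1 hz with rfl | rfl
          · exact mem_insert_of_mem hx
          · exact mem_insert_self _ _
        · exact mem_insert_of_mem (hin f hf z hz)
  obtain ⟨A, _, F', hF', _, hFc, _⟩ := key (S.card - 1) (by have := card_pos.2 hS; omega)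
  have := card_le_card hF'
  omega

omit [DecidableEq V] [DecidableEq E] in
lemma tr_ne {ends : E → Sym2 V} {S : Finset V} {F : Finset E} (h : Tr ends S F) : S.Nonempty :=
  card_pos.1 (by have := h.card; omega)

/-- a tree minus an edge is not connected -/
lemma cut {ends : E → Sym2 V} {S : Finset V} {F : Finset E} (h : Tr ends S F) {e : E} (he : e ∈ F) :
    ∃ A ⊆ S, A.Nonempty ∧ A ≠ S ∧ ∀ f ∈ F.erase e, ¬ Cr ends A f := by
  by_contra hc
  push Not at hc
  have h1 := cnt (tr_ne h) (fun f hf => h.ins f (mem_of_mem_erase hf)) (F := F.erase e)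
    (fun A hA hn hS => by
      obtain ⟨f, hf, hf'⟩ := hc A hA hn hS
      exact ⟨f, hf, hf'⟩)
  have h2 := h.card
  rw [card_erase_of_mem he] at h1
  have := card_pos.2 ⟨e, he⟩
  omega

/-- a tree has no loops -/
lemma no_loop {ends : E → Sym2 V} {S : Finset V} {F : Finset E} (h : Tr ends S F) {e : E} (he : e ∈ F)
    {v : V} : ends e ≠ s(v, v) := by
  intro hl
  obtain ⟨A, hA, hn, hS, hc⟩ := cut h he
  obtain ⟨f, hf, hf'⟩ := h.con A hA hn hS
  by_cases hfe : f = e
  · subst hfe
    rw [cr_mk hl] at hf'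
    clear * - hf'
    tauto
  · exact hc f (mem_erase.2 ⟨hfe, hf⟩) hf'

/-- a new leaf -/
lemma leaf {ends : E → Sym2 V} {S : Finset V} {F : Finset E} (h : Tr ends S F) {v : V} (hv : v ∉ S) {u : E}
    (hu : u ∉ F) {c : V} (hc : c ∈ S) (hends : ends u = s(v, c)) : Tr ends (insert v S) (insert u F) := by
  refine ⟨?_, ?_, ?_⟩
  · intro e he x hx
    rcases mem_insert.1 he with rfl | he
    · rw [hends] at hx
      rcases Sym2.mem_iff.1 hx with rfl | rfl
      · exact mem_insert_self _ _
      · exact mem_insert_of_mem hc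
    · exact mem_insert_of_mem (h.ins e he x hx)
  · intro A hA hn hS
    by_cases h1 : (A.erase v).Nonempty ∧ A.erase v ≠ S
    · obtain ⟨e, he, x, y, hxy, hx, hy⟩ := h.con (A.erase v) (by
        intro z hz
        rcases mem_insert.1 (hA (mem_of_mem_erase hz)) with rfl | h'
        · exact absurd rfl (ne_of_mem_erase hz)
        · exact h') h1.1 h1.2
      have hyS : y ∈ S := h.ins e he y (by rw [hxy]; exact Sym2.mem_mk_right x y)
      refine ⟨e, mem_insert_of_mem he, x, y, hxy, mem_of_mem_erase hx, fun hy' => hy (mem_erase.2 ⟨?_, hy'⟩)⟩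
      rintro rfl
      exact hv hyS
    · refine ⟨u, mem_insert_self _ _, ?_⟩
      rw [cr_mk hends]
      by_cases hvA : v ∈ A
      · left
        refine ⟨hvA, fun hcA => ?_⟩
        have h2 : (A.erase v).Nonempty := ⟨c, mem_erase.2 ⟨by rintro rfl; exact hv hc, hcA⟩⟩
        have h3 : A.erase v = S := by
          by_contra h4
          exact h1 ⟨h2, h4⟩
        apply hS
        rw [← h3, insert_erase hvA]
      · right
        rw [erase_eq_of_notMem hvA] at h1
        have h3 : A = S := by
          by_contra h4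
          exact h1 ⟨hn, h4⟩
        exact ⟨by rw [h3]; exact hc, hvA⟩
  · rw [card_insert_of_notMem hu, card_insert_of_notMem hv, h.card]

/-- removing a leaf -/
lemma unleaf {ends : E → Sym2 V} {S : Finset V} {F : Finset E} {v : V} (hv : v ∉ S)
    (h : Tr ends (insert v S) F) {u : E} (hu : u ∈ F) {c : V} (hends : ends u = s(v, c))
    (hoth : ∀ e ∈ F, v ∈ ends e → e = u) : Tr ends S (F.erase u) := by
  have hnv : ∀ e ∈ F.erase u, v ∉ ends e := fun e he hve =>
    (ne_of_mem_erase he) (hoth e (mem_of_mem_erase he) hve)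
  refine ⟨?_, ?_, ?_⟩
  · intro e he x hx
    rcases mem_insert.1 (h.ins e (mem_of_mem_erase he) x hx) with rfl | h'
    · exact absurd hx (hnv e he)
    · exact h'
  · intro A hA hn hS
    have hvA : v ∉ A := fun h' => hv (hA h')
    obtain ⟨e, he, hcr⟩ := h.con A (hA.trans (subset_insert _ _)) hn (by
      rintro rfl
      exact hvA (mem_insert_self _ _))
    by_cases heu : e = u
    · subst heu
      rw [cr_mk hends] at hcr
      have hcA : c ∈ A := by
        rcases hcr with h' | h'
        · exact absurd h'.1 hvA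
        · exact h'.1
      obtain ⟨f, hf, x, y, hxy, hx, hy⟩ := h.con (insert v A) (insert_subset_insert _ hA) ⟨v, mem_insert_self _ _⟩ (by
        intro h'
        apply hS
        have := congrArg (fun Z => Z.erase v) h'
        simpa [erase_insert hvA, erase_insert hv] using this)
      have hfu : f ≠ e := by
        rintro rfl
        have : Cr ends (insert v A) f := ⟨x, y, hxy, hx, hy⟩
        rw [cr_mk hends] at this
        have hc1 : c ∈ insert v A := mem_insert_of_mem hcA
        have hv1 : v ∈ insert v A := mem_insert_self _ _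
        clear * - hc1 hv1 this
        tauto
      have hf' : f ∈ F.erase e := mem_erase.2 ⟨hfu, hf⟩
      refine ⟨f, hf', x, y, hxy, ?_, fun h' => hy (mem_insert_of_mem h')⟩
      rcases mem_insert.1 hx with rfl | h'
      · exact absurd (by rw [hxy]; exact Sym2.mem_mk_left x y) (hnv f hf')
      · exact h'
    · exact ⟨e, mem_erase.2 ⟨heu, he⟩, hcr⟩
  · have h1 := h.card
    rw [card_insert_of_notMem hv] at h1
    rw [card_erase_of_mem hu]
    have := card_pos.2 ⟨u, hu⟩
    omega

lemma cases3 {S A : Finset V} {v : V} (hv : v ∉ S) (hA : A ⊆ insert v S) (hn : A.Nonempty)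
    (hS : A ≠ insert v S) : (A.erase v ⊆ S ∧ (A.erase v).Nonempty ∧ A.erase v ≠ S) ∨
      (v ∈ A ∧ ∀ x ∈ S, x ∉ A) ∨ (v ∉ A ∧ ∀ x ∈ S, x ∈ A) := by
  have hsub : A.erase v ⊆ S := by
    intro z hz
    rcases mem_insert.1 (hA (mem_of_mem_erase hz)) with rfl | h'
    · exact absurd rfl (ne_of_mem_erase hz)
    · exact h'
  by_cases h1 : (A.erase v).Nonempty ∧ A.erase v ≠ S
  · exact Or.inl ⟨hsub, h1⟩
  · right
    by_cases hvA : v ∈ A
    · left
      refine ⟨hvA, fun c hc hcA => ?_⟩
      have h2 : (A.erase v).Nonempty := ⟨c, mem_erase.2 ⟨by rintro rfl; exact hv hc, hcA⟩⟩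
      have h3 : A.erase v = S := by
        by_contra h4
        exact h1 ⟨h2, h4⟩
      apply hS
      rw [← h3, insert_erase hvA]
    · right
      rw [erase_eq_of_notMem hvA] at h1
      have h3 : A = S := by
        by_contra h4
        exact h1 ⟨hn, h4⟩
      exact ⟨hvA, fun x hx => by rw [h3]; exact hx⟩

/-- subdividing an edge -/
lemma subd {ends ends' : E → Sym2 V} {S : Finset V} {W : Finset E} (h : Tr ends' S W) {v a b : V} (hv : v ∉ S)
    {e1 e2 : E} (h1 : e1 ∈ W) (h2 : e2 ∉ W) (hab : ends' e1 = s(a, b)) (hag : ∀ f, f ≠ e1 → ends f = ends' f)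
    (ha : ends e1 = s(v, a)) (hb : ends e2 = s(v, b)) : Tr ends (insert v S) (insert e2 W) := by
  have haS : a ∈ S := h.ins e1 h1 a (by rw [hab]; exact Sym2.mem_mk_left a b)
  have hbS : b ∈ S := h.ins e1 h1 b (by rw [hab]; exact Sym2.mem_mk_right a b)
  have hav : a ≠ v := by rintro rfl; exact hv haS
  have hbv : b ≠ v := by rintro rfl; exact hv hbS
  refine ⟨?_, ?_, ?_⟩
  · intro e he x hx
    rcases mem_insert.1 he with rfl | he
    · rw [hb] at hx
      rcases Sym2.mem_iff.1 hx with rfl | rfl
      · exact mem_insert_self _ _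
      · exact mem_insert_of_mem hbS
    · by_cases hee : e = e1
      · subst hee
        rw [ha] at hx
        rcases Sym2.mem_iff.1 hx with rfl | rfl
        · exact mem_insert_self _ _
        · exact mem_insert_of_mem haS
      · exact mem_insert_of_mem (h.ins e he x (by rw [← hag e hee]; exact hx))
  · intro A hA hn hS
    rcases cases3 hv hA hn hS with ⟨k1, k2, k3⟩ | ⟨k1, k2⟩ | ⟨k1, k2⟩
    · obtain ⟨e, he, hcr⟩ := h.con _ k1 k2 k3
      by_cases hee : e = e1
      · subst hee
        rw [cr_mk hab] at hcr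
        simp only [mem_erase, ne_eq, hav, not_false_eq_true, true_and, hbv] at hcr
        by_cases hvA : v ∈ A
        · rcases hcr with ⟨_, h'⟩ | ⟨_, h'⟩
          · exact ⟨e2, mem_insert_self _ _, (cr_mk hb).2 (Or.inl ⟨hvA, h'⟩)⟩
          · exact ⟨e, mem_insert_of_mem he, (cr_mk ha).2 (Or.inl ⟨hvA, h'⟩)⟩
        · rcases hcr with ⟨h', _⟩ | ⟨h', _⟩
          · exact ⟨e, mem_insert_of_mem he, (cr_mk ha).2 (Or.inr ⟨h', hvA⟩)⟩
          · exact ⟨e2, mem_insert_self _ _, (cr_mk hb).2 (Or.inr ⟨h', hvA⟩)⟩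
      · obtain ⟨x, y, hxy, hx, hy⟩ := hcr
        have hyS : y ∈ S := h.ins e he y (by rw [hxy]; exact Sym2.mem_mk_right x y)
        refine ⟨e, mem_insert_of_mem he, x, y, by rw [hag e hee, hxy], mem_of_mem_erase hx,
          fun hy' => hy (mem_erase.2 ⟨?_, hy'⟩)⟩
        rintro rfl
        exact hv hyS
    · exact ⟨e1, mem_insert_of_mem h1, (cr_mk ha).2 (Or.inl ⟨k1, k2 a haS⟩)⟩
    · exact ⟨e1, mem_insert_of_mem h1, (cr_mk ha).2 (Or.inr ⟨k2 a haS, k1⟩)⟩
  · rw [card_insert_of_notMem h2, card_insert_of_notMem hv, h.card]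

/-- the inverse of a subdivision -/
lemma unsubd {ends ends' : E → Sym2 V} {S : Finset V} {F : Finset E} {v a b : V} (hv : v ∉ S)
    (h : Tr ends (insert v S) F) {e1 e2 : E} (h1 : e1 ∈ F) (h2 : e2 ∈ F) (h12 : e1 ≠ e2)
    (hab : ends' e1 = s(a, b)) (hag : ∀ f, f ≠ e1 → ends f = ends' f)
    (ha : ends e1 = s(v, a)) (hb : ends e2 = s(v, b)) (haS : a ∈ S) (hbS : b ∈ S)
    (hoth : ∀ e ∈ F, v ∈ ends e → e = e1 ∨ e = e2) : Tr ends' S (F.erase e2) := by
  refine ⟨?_, ?_, ?_⟩
  · intro e he x hx
    by_cases hee : e = e1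
    · subst hee
      rw [hab] at hx
      rcases Sym2.mem_iff.1 hx with rfl | rfl
      · exact haS
      · exact hbS
    · rw [← hag e hee] at hx
      rcases mem_insert.1 (h.ins e (mem_of_mem_erase he) x hx) with rfl | h'
      · rcases hoth e (mem_of_mem_erase he) hx with h' | h'
        · exact absurd h' hee
        · exact absurd h' (ne_of_mem_erase he)
      · exact h'
  · intro A hA hn hS
    have hvA : v ∉ A := fun h' => hv (hA h')
    have hins : insert v A ≠ insert v S := by
      intro h'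
      apply hS
      have := congrArg (fun Z => Z.erase v) h'
      simpa [erase_insert hvA, erase_insert hv] using this
    obtain ⟨f, hf, hcf⟩ := h.con (insert v A) (insert_subset_insert _ hA) ⟨v, mem_insert_self _ _⟩ hins
    obtain ⟨e, he, hcr⟩ := h.con A (hA.trans (subset_insert _ _)) hn (by
      rintro rfl
      exact hvA (mem_insert_self _ _))
    by_cases hb1 : v ∈ ends e
    · by_cases hb2 : v ∈ ends f
      · refine ⟨e1, mem_erase.2 ⟨h12, h1⟩, ?_⟩
        rw [cr_mk hab]
        have hv1 : v ∈ insert v A := mem_insert_self _ _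
        have haA : a ∈ insert v A ↔ a ∈ A := by
          rw [mem_insert]
          constructor
          · rintro (rfl | h')
            · exact absurd haS hv
            · exact h'
          · exact Or.inr
        have hbA : b ∈ insert v A ↔ b ∈ A := by
          rw [mem_insert]
          constructor
          · rintro (rfl | h')
            · exact absurd hbS hv
            · exact h'
          · exact Or.inr
        rcases hoth e he hb1 with rfl | rfl
        · rw [cr_mk ha] at hcr
          rcases hoth f hf hb2 with rfl | rfl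
          · rw [cr_mk ha] at hcf
            clear * - hcr hvA hv1 haA hbA hcf
            tauto
          · rw [cr_mk hb] at hcf
            clear * - hcr hvA hv1 haA hbA hcf
            tauto
        · rw [cr_mk hb] at hcr
          rcases hoth f hf hb2 with rfl | rfl
          · rw [cr_mk ha] at hcf
            clear * - hcr hvA hv1 haA hbA hcf
            tauto
          · rw [cr_mk hb] at hcf
            clear * - hcr hvA hv1 haA hbA hcf
            tauto
      · have hfe1 : f ≠ e1 := by
          rintro rfl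
          exact hb2 (by rw [ha]; exact Sym2.mem_mk_left v a)
        have hfe2 : f ≠ e2 := by
          rintro rfl
          exact hb2 (by rw [hb]; exact Sym2.mem_mk_left v b)
        obtain ⟨x, y, hxy, hx, hy⟩ := hcf
        refine ⟨f, mem_erase.2 ⟨hfe2, hf⟩, x, y, by rw [← hag f hfe1, hxy], ?_, fun h' => hy (mem_insert_of_mem h')⟩
        rcases mem_insert.1 hx with rfl | h'
        · exact absurd (by rw [hxy]; exact Sym2.mem_mk_left x y) hb2
        · exact h'
    · have hee1 : e ≠ e1 := by
        rintro rfl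
        exact hb1 (by rw [ha]; exact Sym2.mem_mk_left v a)
      have hee2 : e ≠ e2 := by
        rintro rfl
        exact hb1 (by rw [hb]; exact Sym2.mem_mk_left v b)
      obtain ⟨x, y, hxy, hx, hy⟩ := hcr
      exact ⟨e, mem_erase.2 ⟨hee2, he⟩, x, y, by rw [← hag e hee1, hxy], hx, hy⟩
  · have h3 := h.card
    rw [card_insert_of_notMem hv] at h3
    rw [card_erase_of_mem h2]
    have := card_pos.2 ⟨e2, h2⟩
    omega

/-- joining the two parts of a tree minus an edge by a path through `v` -/
lemma join {ends ends' : E → Sym2 V} {S A0 : Finset V} {W : Finset E} (h : Tr ends' S W) {v a b c d : V} (hv : v ∉ S)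
    {e1 x u : E} (h1 : e1 ∈ W) (hab : ends' e1 = s(a, b)) (hag : ∀ f, f ≠ e1 → ends f = ends' f)
    (hA0 : A0 ⊆ S) (hA0n : A0.Nonempty) (hA0S : A0 ≠ S) (hcut : ∀ f ∈ W.erase e1, ¬ Cr ends' A0 f)
    (hx : x ∉ W.erase e1) (hu : u ∉ W.erase e1) (hxu : x ≠ u) (hc : c ∈ S) (hd : d ∈ S)
    (hxe : ends x = s(v, c)) (hue : ends u = s(v, d)) (hcd : c ∈ A0 ↔ d ∉ A0) :
    Tr ends (insert v S) (insert u (insert x (W.erase e1))) := by
  have hcv : c ≠ v := by rintro rfl; exact hv hc
  have hdv : d ≠ v := by rintro rfl; exact hv hd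
  have hu' : u ∉ insert x (W.erase e1) := by
    rw [mem_insert]
    rintro (h' | h')
    · exact hxu h'.symm
    · exact hu h'
  refine ⟨?_, ?_, ?_⟩
  · intro e he z hz
    rcases mem_insert.1 he with rfl | he
    · rw [hue] at hz
      rcases Sym2.mem_iff.1 hz with rfl | rfl
      · exact mem_insert_self _ _
      · exact mem_insert_of_mem hd
    · rcases mem_insert.1 he with rfl | he
      · rw [hxe] at hz
        rcases Sym2.mem_iff.1 hz with rfl | rfl
        · exact mem_insert_self _ _
        · exact mem_insert_of_mem hc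
      · rw [hag e (ne_of_mem_erase he)] at hz
        exact mem_insert_of_mem (h.ins e (mem_of_mem_erase he) z hz)
  · intro A hA hn hS
    rcases cases3 hv hA hn hS with ⟨k1, k2, k3⟩ | ⟨k1, k2⟩ | ⟨k1, k2⟩
    · by_cases hP : ∃ f ∈ W.erase e1, Cr ends' (A.erase v) f
      · obtain ⟨f, hf, y, z, hyz, hy, hz⟩ := hP
        have hzS : z ∈ S := h.ins f (mem_of_mem_erase hf) z (by rw [hyz]; exact Sym2.mem_mk_right y z)
        refine ⟨f, mem_insert_of_mem (mem_insert_of_mem hf), y, z, by rw [hag f (ne_of_mem_erase hf), hyz],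
          mem_of_mem_erase hy, fun h' => hz (mem_erase.2 ⟨?_, h'⟩)⟩
        rintro rfl
        exact hv hzS
      · push Not at hP
        have e1A : Cr ends' (A.erase v) e1 := by
          obtain ⟨f, hf, hf'⟩ := h.con _ k1 k2 k3
          by_cases hfe : f = e1
          · rw [← hfe]
            exact hf'
          · exact absurd hf' (hP f (mem_erase.2 ⟨hfe, hf⟩))
        have e1A0 : Cr ends' A0 e1 := by
          obtain ⟨f, hf, hf'⟩ := h.con _ hA0 hA0n hA0S
          by_cases hfe : f = e1
          · rw [← hfe]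
            exact hf'
          · exact absurd hf' (hcut f (mem_erase.2 ⟨hfe, hf⟩))
        have hclaim : (∀ z ∈ S, (z ∈ A.erase v ↔ z ∈ A0)) ∨ (∀ z ∈ S, (z ∈ A.erase v ↔ z ∉ A0)) := by
          by_contra hcon
          push Not at hcon
          obtain ⟨⟨z1, hz1, hz1'⟩, ⟨z2, hz2, hz2'⟩⟩ := hcon
          obtain ⟨f, hf, y, z, hyz, hy, hz⟩ := h.con (S.filter fun z => (z ∈ A.erase v ↔ z ∈ A0)) (filter_subset _ _)
            ⟨z2, mem_filter.2 ⟨hz2, by clear * - hz2'; tauto⟩⟩ (by
              intro h'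
              have h3 : z1 ∈ S.filter fun z => (z ∈ A.erase v ↔ z ∈ A0) := by
                rw [h']
                exact hz1
              have h4 := (mem_filter.1 h3).2
              clear * - h4 hz1'
              tauto)
          have hzS : z ∈ S := h.ins f hf z (by rw [hyz]; exact Sym2.mem_mk_right y z)
          have hy' := (mem_filter.1 hy).2
          have hz' : ¬ (z ∈ A.erase v ↔ z ∈ A0) := fun h' => hz (mem_filter.2 ⟨hzS, h'⟩)
          by_cases hfe : f = e1
          · subst hfe
            rw [cr_mk hyz] at e1A e1A0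
            clear * - e1A e1A0 hy' hz'
            tauto
          · have q1 := hP f (mem_erase.2 ⟨hfe, hf⟩)
            have q2 := hcut f (mem_erase.2 ⟨hfe, hf⟩)
            rw [cr_mk hyz] at q1 q2
            clear * - q1 q2 hy' hz'
            tauto
        have hcA : c ∈ A.erase v ↔ c ∈ A := by
          rw [mem_erase]
          exact ⟨fun h' => h'.2, fun h' => ⟨hcv, h'⟩⟩
        have hdA : d ∈ A.erase v ↔ d ∈ A := by
          rw [mem_erase]
          exact ⟨fun h' => h'.2, fun h' => ⟨hdv, h'⟩⟩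
        have hdiff : c ∈ A ↔ d ∉ A := by
          rcases hclaim with hq | hq
          · have q1 := hq c hc
            have q2 := hq d hd
            clear * - q1 q2 hcA hdA hcd
            tauto
          · have q1 := hq c hc
            have q2 := hq d hd
            clear * - q1 q2 hcA hdA hcd
            tauto
        by_cases hvA : v ∈ A
        · by_cases hcA' : c ∈ A
          · exact ⟨u, mem_insert_self _ _, (cr_mk hue).2 (Or.inl ⟨hvA, hdiff.1 hcA'⟩)⟩
          · exact ⟨x, mem_insert_of_mem (mem_insert_self _ _), (cr_mk hxe).2 (Or.inl ⟨hvA, hcA'⟩)⟩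
        · by_cases hcA' : c ∈ A
          · exact ⟨x, mem_insert_of_mem (mem_insert_self _ _), (cr_mk hxe).2 (Or.inr ⟨hcA', hvA⟩)⟩
          · exact ⟨u, mem_insert_self _ _, (cr_mk hue).2 (Or.inr ⟨by clear * - hdiff hcA'; tauto, hvA⟩)⟩
    · exact ⟨u, mem_insert_self _ _, (cr_mk hue).2 (Or.inl ⟨k1, k2 d hd⟩)⟩
    · exact ⟨u, mem_insert_self _ _, (cr_mk hue).2 (Or.inr ⟨k2 d hd, k1⟩)⟩
  · rw [card_insert_of_notMem hu', card_insert_of_notMem hx, card_insert_of_notMem hv, card_erase_of_mem h1, ← h.card]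
    have := card_pos.2 ⟨e1, h1⟩
    omega

/-- the special window -/
lemma special {ends ends' : E → Sym2 V} {S : Finset V} {W : Finset E} (h : Tr ends' S W) {v a b d : V} (hv : v ∉ S)
    {e1 e2 u : E} (h1 : e1 ∈ W) (h2 : e2 ∉ W) (hu : u ∉ W) (hu2 : u ≠ e2) (hab : ends' e1 = s(a, b))
    (hag : ∀ f, f ≠ e1 → ends f = ends' f) (ha : ends e1 = s(v, a)) (hb : ends e2 = s(v, b)) (hd : d ∈ S)
    (hue : ends u = s(v, d)) :
    Tr ends (insert v S) (insert u (insert e1 (W.erase e1))) ∨
      Tr ends (insert v S) (insert u (insert e2 (W.erase e1))) := by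
  have haS : a ∈ S := h.ins e1 h1 a (by rw [hab]; exact Sym2.mem_mk_left a b)
  have hbS : b ∈ S := h.ins e1 h1 b (by rw [hab]; exact Sym2.mem_mk_right a b)
  obtain ⟨A0, hA0, hA0n, hA0S, hcut⟩ := cut h h1
  have e1A0 : Cr ends' A0 e1 := by
    obtain ⟨f, hf, hf'⟩ := h.con _ hA0 hA0n hA0S
    by_cases hfe : f = e1
    · rw [← hfe]
      exact hf'
    · exact absurd hf' (hcut f (mem_erase.2 ⟨hfe, hf⟩))
  rw [cr_mk hab] at e1A0
  have hue1 : u ≠ e1 := by rintro rfl; exact hu h1
  by_cases hda : a ∈ A0 ↔ d ∉ A0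
  · left
    exact join h hv h1 hab hag hA0 hA0n hA0S hcut (notMem_erase _ _) (fun h' => hu (mem_of_mem_erase h'))
      hue1.symm haS hd ha hue hda
  · right
    exact join h hv h1 hab hag hA0 hA0n hA0S hcut (fun h' => h2 (mem_of_mem_erase h'))
      (fun h' => hu (mem_of_mem_erase h')) hu2.symm hbS hd hb hue (by clear * - hda e1A0; tauto)

end Pool.Agent.helper57.FLD
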