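import Pool.Agent.helper57.FLD.A

/-!
# Cyclic orderings as lists of columns, insertion of a vertex of degree `K` or `K + 1`

A column is a function `c : ZMod K → E`; the ordering belonging to the columns `c_1, ..., c_N` is
`c_1 0, ..., c_N 0, c_1 1, ..., c_N 1, ..., c_N (K - 1)`, and its windows are the sets `win q L1 L2`.
-/

set_option autoImplicit false

namespace Pool.Agent.helper57.FLD

open Finset

variable {V E : Type*} [DecidableEq V] [DecidableEq E] {K : ℕ}

/-- the edges `c (q + 1)` for `c` in `L1` and `c q` for `c` in `L2` -/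
def win (q : ZMod K) (L1 L2 : List (ZMod K → E)) : Finset E :=
  (L1.map (fun c => c (q + 1))).toFinset ∪ (L2.map (fun c => c q)).toFinset

/-- there is a cyclic ordering of `U`, given by columns, all of whose windows are trees on `S` -/
def Ord (K : ℕ) (ends : E → Sym2 V) (S : Finset V) (U : Finset E) : Prop :=
  ∃ L : List (ZMod K → E), L.length + 1 = S.card ∧ (∀ e, e ∈ U ↔ ∃ c ∈ L, ∃ k, c k = e) ∧
    ∀ q L1 L2, L = L1 ++ L2 → Tr ends S (win q L1 L2)

lemma mem_win {q : ZMod K} {L1 L2 : List (ZMod K → E)} {e : E} :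
    e ∈ win q L1 L2 ↔ (∃ c ∈ L1, c (q + 1) = e) ∨ ∃ c ∈ L2, c q = e := by
  simp [win]

omit [DecidableEq V] [DecidableEq E] in
lemma tr_congr {ends ends' : E → Sym2 V} {S : Finset V} {W : Finset E} (h : Tr ends' S W)
    (hag : ∀ f ∈ W, ends f = ends' f) : Tr ends S W := by
  refine ⟨fun e he x hx => h.ins e he x (by rw [← hag e he]; exact hx), fun A hA hn hS => ?_, h.card⟩
  obtain ⟨e, he, x, y, hxy, hx, hy⟩ := h.con A hA hn hS
  exact ⟨e, he, x, y, by rw [hag e he, hxy], hx, hy⟩

/-- a vertex of degree `K` -/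
lemma ord_leaf {ends : E → Sym2 V} {S : Finset V} {U' U : Finset E} (h : Ord K ends S U') {v : V} (hv : v ∉ S)
    (u : ZMod K → E) (hu : ∀ k, u k ∉ U') (hue : ∀ k, ∃ c ∈ S, ends (u k) = s(v, c))
    (hU : ∀ e, e ∈ U ↔ e ∈ U' ∨ ∃ k, u k = e) : Ord K ends (insert v S) U := by
  obtain ⟨L, hL, hm, hw⟩ := h
  have hsub : ∀ q L1 L2, L = L1 ++ L2 → ∀ e ∈ win q L1 L2, e ∈ U' := by
    intro q L1 L2 hLL e he
    rw [hm]
    rcases mem_win.1 he with ⟨c, hc, rfl⟩ | ⟨c, hc, rfl⟩
    · exact ⟨c, by rw [hLL]; exact List.mem_append_left _ hc, _, rfl⟩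
    · exact ⟨c, by rw [hLL]; exact List.mem_append_right _ hc, _, rfl⟩
  refine ⟨u :: L, ?_, ?_, ?_⟩
  · rw [List.length_cons, card_insert_of_notMem hv, hL]
  · intro e
    rw [hU, hm]
    constructor
    · rintro (⟨c, hc, hk⟩ | hk)
      · exact ⟨c, List.mem_cons_of_mem _ hc, hk⟩
      · exact ⟨u, List.mem_cons_self, hk⟩
    · rintro ⟨c, hc, hk⟩
      rcases List.mem_cons.1 hc with rfl | hc
      · exact Or.inr hk
      · exact Or.inl ⟨c, hc, hk⟩
  · intro q L1 L2 hLL
    rcases L1 with _ | ⟨c, L1⟩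
    · rw [List.nil_append] at hLL
      subst hLL
      obtain ⟨d, hd, hde⟩ := hue q
      have h1 : win q [] (u :: L) = insert (u q) (win q [] L) := by
        ext e
        simp [win]
      rw [h1]
      exact leaf (hw q [] L rfl) hv (fun h' => hu q (hsub q [] L rfl _ h')) hd hde
    · rw [List.cons_append, List.cons.injEq] at hLL
      obtain ⟨rfl, hLL⟩ := hLL
      obtain ⟨d, hd, hde⟩ := hue (q + 1)
      have h1 : win q (u :: L1) L2 = insert (u (q + 1)) (win q L1 L2) := by
        ext e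
        simp [win]
      rw [h1]
      exact leaf (hw q L1 L2 hLL) hv (fun h' => hu _ (hsub q L1 L2 hLL _ h')) hd hde

omit [DecidableEq V] in
/-- if there are as many edges as places then the columns have no repetitions -/
lemma cols_ne [NeZero K] {L A B : List (ZMod K → E)} {c0 : ZMod K → E} {U : Finset E}
    (hU : ∀ e, e ∈ U ↔ ∃ c ∈ L, ∃ k, c k = e) (hc : U.card = K * L.length) (hL : L = A ++ c0 :: B) :
    (∀ c ∈ A, ∀ k l, c k ≠ c0 l) ∧ (∀ c ∈ B, ∀ k l, c k ≠ c0 l) ∧ Function.Injective c0 := by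
  have hnd : (L.flatMap (fun c => (univ : Finset (ZMod K)).toList.map c)).Nodup := by
    have hlen : (L.flatMap (fun c => (univ : Finset (ZMod K)).toList.map c)).length = K * L.length := by
      rw [List.length_flatMap]
      simp [ZMod.card, mul_comm]
    have hfin : (L.flatMap (fun c => (univ : Finset (ZMod K)).toList.map c)).toFinset = U := by
      ext e
      rw [hU e]
      simp
    have h1 : (L.flatMap (fun c => (univ : Finset (ZMod K)).toList.map c)).dedup.length =
        (L.flatMap (fun c => (univ : Finset (ZMod K)).toList.map c)).length := by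
      rw [← List.card_toFinset, hfin, hc, hlen]
    rw [← (List.dedup_sublist _).eq_of_length h1]
    exact List.nodup_dedup _
  rw [List.nodup_flatMap, hL, List.pairwise_append, List.pairwise_cons] at hnd
  obtain ⟨h1, _, ⟨h2, _⟩, h3⟩ := hnd
  refine ⟨?_, ?_, ?_⟩
  · intro c hcA k l h'
    have := h3 c hcA c0 List.mem_cons_self
    simp only [Function.onFun] at this
    exact List.disjoint_left.1 this (List.mem_map.2 ⟨k, by simp, rfl⟩) (List.mem_map.2 ⟨l, by simp, h'.symm⟩)
  · intro c hcB k l h'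
    have := h2 c hcB
    simp only [Function.onFun] at this
    exact List.disjoint_left.1 this (List.mem_map.2 ⟨l, by simp, rfl⟩) (List.mem_map.2 ⟨k, by simp, h'⟩)
  · intro k l hkl
    have := h1 c0 (by simp)
    exact List.inj_on_of_nodup_map this (by simp) (by simp) hkl

/-- the windows in which the old column and the new one are in the same phase -/
lemma stepA {ends ends' : E → Sym2 V} {S : Finset V} {U' P : Finset E} {v a b : V} (hv : v ∉ S) {e1 e2 x1 x2 : E}
    (hx : (x1 = e1 ∧ x2 = e2) ∨ (x1 = e2 ∧ x2 = e1)) (he2 : e2 ∉ U') (hab : ends' e1 = s(a, b))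
    (hag : ∀ f, f ≠ e1 → ends f = ends' f) (ha : ends e1 = s(v, a)) (hb : ends e2 = s(v, b))
    {c0 u : ZMod K → E} {k0 : ZMod K} (hk0 : c0 k0 = e1) (hinj : Function.Injective c0) (hc0 : ∀ k, c0 k ∈ U')
    (hu : ∀ k, k ≠ k0 → u k ∉ U' ∧ ∃ d ∈ S, ends (u k) = s(v, d)) (hP : ∀ e ∈ P, e ∈ U' ∧ e ≠ e1) (s : ZMod K)
    (h : Tr ends' S (insert (c0 s) P)) :
    Tr ends (insert v S) (insert (if s = k0 then x1 else c0 s) (insert (if s = k0 then x2 else u s) P)) := by
  by_cases hs : s = k0
  · subst hs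
    rw [if_pos rfl, if_pos rfl]
    rw [hk0] at h
    have h2 : insert x1 (insert x2 P) = insert e2 (insert e1 P) := by
      rcases hx with ⟨rfl, rfl⟩ | ⟨rfl, rfl⟩
      · exact Finset.insert_comm _ _ _
      · rfl
    rw [h2]
    refine subd h hv (mem_insert_self _ _) ?_ hab hag ha hb
    intro h'
    rcases mem_insert.1 h' with h' | h'
    · rw [h', ← hk0] at he2
      exact he2 (hc0 _)
    · exact he2 (hP _ h').1
  · rw [if_neg hs, if_neg hs, Finset.insert_comm]
    obtain ⟨hu1, d, hd, hde⟩ := hu s hs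
    refine leaf (tr_congr h ?_) hv ?_ hd hde
    · intro f hf
      apply hag
      rcases mem_insert.1 hf with rfl | hf
      · rw [← hk0]
        exact fun h' => hs (hinj h')
      · exact (hP _ hf).2
    · intro h'
      rcases mem_insert.1 h' with h' | h'
      · exact hu1 (by rw [h']; exact hc0 _)
      · exact hu1 (hP _ h').1

/-- the windows between the old column and the new one -/
lemma stepB {ends ends' : E → Sym2 V} {S : Finset V} {U' P : Finset E} {v a b : V} (hv : v ∉ S) {e1 e2 x1 x2 : E}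
    (hx : (x1 = e1 ∧ x2 = e2) ∨ (x1 = e2 ∧ x2 = e1)) (he2 : e2 ∉ U')
    (hag : ∀ f, f ≠ e1 → ends f = ends' f) (ha : ends e1 = s(v, a)) (hb : ends e2 = s(v, b)) (haS : a ∈ S) (hbS : b ∈ S)
    {c0 u : ZMod K → E} {k0 : ZMod K} (hk0 : c0 k0 = e1) (hinj : Function.Injective c0) (hc0 : ∀ k, c0 k ∈ U')
    (hu : ∀ k, k ≠ k0 → u k ∉ U' ∧ ∃ d ∈ S, ends (u k) = s(v, d)) (hP : ∀ e ∈ P, e ∈ U' ∧ e ≠ e1) (q : ZMod K)
    (hK : q ≠ q + 1)
    (hsp : q + 1 = k0 → Tr ends (insert v S) (insert x1 (insert (u q) P)))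
    (h : Tr ends' S (insert (c0 (q + 1)) P)) :
    Tr ends (insert v S) (insert (if q + 1 = k0 then x1 else c0 (q + 1)) (insert (if q = k0 then x2 else u q) P)) := by
  by_cases hs : q + 1 = k0
  · rw [if_pos hs, if_neg (fun h' => hK (h'.trans hs.symm))]
    exact hsp hs
  · rw [if_neg hs, Finset.insert_comm]
    have hW : ∀ f ∈ insert (c0 (q + 1)) P, f ∈ U' ∧ f ≠ e1 := by
      intro f hf
      rcases mem_insert.1 hf with rfl | hf
      · refine ⟨hc0 _, ?_⟩
        rw [← hk0]
        exact fun h' => hs (hinj h')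
      · exact hP _ hf
    have h' : Tr ends S (insert (c0 (q + 1)) P) := tr_congr h fun f hf => hag f (hW f hf).2
    by_cases hq : q = k0
    · rw [if_pos hq]
      rcases hx with ⟨_, rfl⟩ | ⟨_, rfl⟩
      · exact leaf h' hv (fun h'' => he2 (hW _ h'').1) hbS hb
      · exact leaf h' hv (fun h'' => (hW _ h'').2 rfl) haS ha
    · rw [if_neg hq]
      obtain ⟨hu1, d, hd, hde⟩ := hu q hq
      exact leaf h' hv (fun h'' => hu1 (hW _ h'').1) hd hde

end Pool.Agent.helper57.FLD
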