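import Pool.Agent.helper57.FLD.B

/-!
# Insertion of a vertex of degree `K + 1`
-/

set_option autoImplicit false

namespace Pool.Agent.helper57.FLD

open Finset

variable {V E : Type*} [DecidableEq V] [DecidableEq E] {K : ℕ}

lemma ord_sub1 [NeZero K] {ends ends' : E → Sym2 V} {S : Finset V} {U' U : Finset E} {v a b : V}
    (hv : v ∉ S) {e1 e2 x1 x2 : E}
    (hx : (x1 = e1 ∧ x2 = e2) ∨ (x1 = e2 ∧ x2 = e1)) (he2 : e2 ∉ U') (hab : ends' e1 = s(a, b))
    (hag : ∀ f, f ≠ e1 → ends f = ends' f) (ha : ends e1 = s(v, a)) (hb : ends e2 = s(v, b)) (haS : a ∈ S) (hbS : b ∈ S)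
    {c0 u : ZMod K → E} {k0 : ZMod K} (hk0 : c0 k0 = e1) (A B : List (ZMod K → E))
    (hlen : (A ++ c0 :: B).length + 1 = S.card)
    (hm : ∀ e, e ∈ U' ↔ ∃ c ∈ A ++ c0 :: B, ∃ k, c k = e)
    (hw : ∀ q L1 L2, A ++ c0 :: B = L1 ++ L2 → Tr ends' S (win q L1 L2))
    (hne : (∀ c ∈ A, ∀ k l, c k ≠ c0 l) ∧ (∀ c ∈ B, ∀ k l, c k ≠ c0 l) ∧ Function.Injective c0)
    (hu : ∀ k, k ≠ k0 → u k ∉ U' ∧ ∃ d ∈ S, ends (u k) = s(v, d))
    (hK : ∀ q : ZMod K, q ≠ q + 1)
    (hsp : Tr ends (insert v S) (insert (u (k0 - 1)) (insert x1 ((win (k0 - 1) (A ++ [c0]) B).erase e1))))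
    (hU : ∀ e, e ∈ U ↔ e ∈ U' ∨ e = e2 ∨ ∃ k, k ≠ k0 ∧ u k = e) : Ord K ends (insert v S) U := by
  obtain ⟨hneA, hneB, hinj⟩ := hne
  have hAU : ∀ c ∈ A, ∀ k, c k ∈ U' ∧ c k ≠ e1 := fun c hc k =>
    ⟨(hm _).2 ⟨c, List.mem_append_left _ hc, k, rfl⟩, by rw [← hk0]; exact hneA c hc k k0⟩
  have hBU : ∀ c ∈ B, ∀ k, c k ∈ U' ∧ c k ≠ e1 := fun c hc k =>
    ⟨(hm _).2 ⟨c, List.mem_append_right _ (List.mem_cons_of_mem _ hc), k, rfl⟩, by rw [← hk0]; exact hneB c hc k k0⟩
  have hc0 : ∀ k, c0 k ∈ U' := fun k => (hm _).2 ⟨c0, List.mem_append_right _ List.mem_cons_self, k, rfl⟩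
  refine ⟨A ++ (fun k => if k = k0 then x1 else c0 k) :: (fun k => if k = k0 then x2 else u k) :: B, ?_, ?_, ?_⟩
  · rw [card_insert_of_notMem hv, ← hlen]
    simp only [List.length_append, List.length_cons]
    omega
  · intro e
    rw [hU, hm]
    constructor
    · rintro (⟨c, hc, k, rfl⟩ | rfl | ⟨k, hk, rfl⟩)
      · rcases List.mem_append.1 hc with hc | hc
        · exact ⟨c, List.mem_append_left _ hc, k, rfl⟩
        · rcases List.mem_cons.1 hc with rfl | hc
          · by_cases hk : k = k0
            · subst hk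
              rcases hx with ⟨h1, _⟩ | ⟨_, h1⟩
              · exact ⟨_, List.mem_append_right _ List.mem_cons_self, k, by simp [h1, hk0]⟩
              · exact ⟨_, List.mem_append_right _ (List.mem_cons_of_mem _ List.mem_cons_self), k, by simp [h1, hk0]⟩
            · exact ⟨_, List.mem_append_right _ List.mem_cons_self, k, by simp [hk]⟩
          · exact ⟨c, List.mem_append_right _ (List.mem_cons_of_mem _ (List.mem_cons_of_mem _ hc)), k, rfl⟩
      · rcases hx with ⟨_, h1⟩ | ⟨h1, _⟩
        · exact ⟨_, List.mem_append_right _ (List.mem_cons_of_mem _ List.mem_cons_self), k0, by simp [h1]⟩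
        · exact ⟨_, List.mem_append_right _ List.mem_cons_self, k0, by simp [h1]⟩
      · exact ⟨_, List.mem_append_right _ (List.mem_cons_of_mem _ List.mem_cons_self), k, by simp [hk]⟩
    · rintro ⟨c, hc, k, rfl⟩
      rcases List.mem_append.1 hc with hc | hc
      · exact Or.inl ⟨c, List.mem_append_left _ hc, k, rfl⟩
      · rcases List.mem_cons.1 hc with rfl | hc
        · by_cases hk : k = k0
          · simp only [hk, if_true]
            rcases hx with ⟨h1, _⟩ | ⟨h1, _⟩
            · exact Or.inl ⟨c0, List.mem_append_right _ List.mem_cons_self, k0, by rw [h1, hk0]⟩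
            · exact Or.inr (Or.inl h1)
          · simp only [hk, if_false]
            exact Or.inl ⟨c0, List.mem_append_right _ List.mem_cons_self, k, rfl⟩
        · rcases List.mem_cons.1 hc with rfl | hc
          · by_cases hk : k = k0
            · simp only [hk, if_true]
              rcases hx with ⟨_, h1⟩ | ⟨_, h1⟩
              · exact Or.inr (Or.inl h1)
              · exact Or.inl ⟨c0, List.mem_append_right _ List.mem_cons_self, k0, by rw [h1, hk0]⟩
            · simp only [hk, if_false]
              exact Or.inr (Or.inr ⟨k, hk, rfl⟩)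
          · exact Or.inl ⟨c, List.mem_append_right _ (List.mem_cons_of_mem _ hc), k, rfl⟩
  · intro q L1 L2 hLL
    have caseI : ∀ c', A = L1 ++ c' → L2 = c' ++ (fun k => if k = k0 then x1 else c0 k) ::
        (fun k => if k = k0 then x2 else u k) :: B → Tr ends (insert v S) (win q L1 L2) := by
      intro c' hA hL2
      have h0 := hw q L1 (c' ++ c0 :: B) (by rw [hA, List.append_assoc])
      have hP : ∀ e ∈ win q L1 (c' ++ B), e ∈ U' ∧ e ≠ e1 := by
        intro e he
        rcases mem_win.1 he with ⟨c, hc, rfl⟩ | ⟨c, hc, rfl⟩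
        · exact hAU c (by rw [hA]; exact List.mem_append_left _ hc) _
        · rcases List.mem_append.1 hc with hc | hc
          · exact hAU c (by rw [hA]; exact List.mem_append_right _ hc) _
          · exact hBU c hc _
      have h1 : win q L1 (c' ++ c0 :: B) = insert (c0 q) (win q L1 (c' ++ B)) := by
        ext e
        simp only [win, List.map_append, List.map_cons, List.toFinset_append, List.toFinset_cons, mem_union, mem_insert]
        clear * -
        tauto
      rw [h1] at h0
      have h2 := stepA hv hx he2 hab hag ha hb hk0 hinj hc0 hu hP q h0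
      have h3 : win q L1 L2 = insert (if q = k0 then x1 else c0 q) (insert (if q = k0 then x2 else u q) (win q L1 (c' ++ B))) := by
        rw [hL2]
        ext e
        simp only [win, List.map_append, List.map_cons, List.toFinset_append, List.toFinset_cons, mem_union, mem_insert]
        clear * -
        tauto
      rw [h3]
      exact h2
    rcases List.append_eq_append_iff.1 hLL with ⟨a', hL1, hB⟩ | ⟨c', hA, hL2⟩
    · rcases a' with _ | ⟨x, a''⟩
      · rw [List.append_nil] at hL1
        rw [List.nil_append] at hB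
        exact caseI [] (by rw [hL1, List.append_nil]) (by rw [List.nil_append, hB])
      · rw [List.cons_append, List.cons.injEq] at hB
        obtain ⟨hx1, hB⟩ := hB
        rcases a'' with _ | ⟨y, B1⟩
        · -- between the two columns
          rw [List.nil_append] at hB
          have h0 := hw q (A ++ [c0]) B (by simp)
          have h1 : ∀ r : ZMod K, win r (A ++ [c0]) B = insert (c0 (r + 1)) (win r A B) := by
            intro r
            ext e
            simp only [win, List.map_append, List.map_cons, List.map_nil, List.toFinset_append, List.toFinset_cons,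
              List.toFinset_nil, mem_union, mem_insert, notMem_empty, or_false]
            clear * -
            tauto
          have hP : ∀ r : ZMod K, ∀ e ∈ win r A B, e ∈ U' ∧ e ≠ e1 := by
            intro r e he
            rcases mem_win.1 he with ⟨c, hc, rfl⟩ | ⟨c, hc, rfl⟩
            · exact hAU c hc _
            · exact hBU c hc _
          rw [h1] at h0
          have h2 := stepB hv hx he2 hag ha hb haS hbS hk0 hinj hc0 hu (hP q) q (hK q) (by
            intro hq
            have hq' : k0 - 1 = q := by rw [← hq]; ring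
            rw [hq', h1, hq, hk0, erase_insert (fun h' => (hP q _ h').2 rfl)] at hsp
            rw [Finset.insert_comm]
            exact hsp) h0
          have h3 : win q L1 L2 = insert (if q + 1 = k0 then x1 else c0 (q + 1))
              (insert (if q = k0 then x2 else u q) (win q A B)) := by
            rw [hL1, ← hB, ← hx1]
            ext e
            simp only [win, List.map_append, List.map_cons, List.map_nil, List.toFinset_append, List.toFinset_cons,
              List.toFinset_nil, mem_union, mem_insert, notMem_empty, or_false]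
            clear * -
            tauto
          rw [h3]
          exact h2
        · -- after the two columns
          rw [List.cons_append, List.cons.injEq] at hB
          obtain ⟨hy, hB⟩ := hB
          have h0 := hw q (A ++ c0 :: B1) L2 (by rw [hB]; simp)
          have hP : ∀ e ∈ win q (A ++ B1) L2, e ∈ U' ∧ e ≠ e1 := by
            intro e he
            rcases mem_win.1 he with ⟨c, hc, rfl⟩ | ⟨c, hc, rfl⟩
            · rcases List.mem_append.1 hc with hc | hc
              · exact hAU c hc _
              · exact hBU c (by rw [hB]; exact List.mem_append_left _ hc) _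
            · exact hBU c (by rw [hB]; exact List.mem_append_right _ hc) _
          have h1 : win q (A ++ c0 :: B1) L2 = insert (c0 (q + 1)) (win q (A ++ B1) L2) := by
            ext e
            simp only [win, List.map_append, List.map_cons, List.toFinset_append, List.toFinset_cons, mem_union, mem_insert]
            clear * -
            tauto
          rw [h1] at h0
          have h2 := stepA hv hx he2 hab hag ha hb hk0 hinj hc0 hu hP (q + 1) h0
          have h3 : win q L1 L2 = insert (if q + 1 = k0 then x1 else c0 (q + 1))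
              (insert (if q + 1 = k0 then x2 else u (q + 1)) (win q (A ++ B1) L2)) := by
            rw [hL1, ← hx1, ← hy]
            ext e
            simp only [win, List.map_append, List.map_cons, List.toFinset_append, List.toFinset_cons, mem_union, mem_insert]
            clear * -
            tauto
          rw [h3]
          exact h2
    · exact caseI c' hA hL2

/-- a vertex of degree `K + 1` -/
lemma ord_sub (hK2 : 2 ≤ K) {ends ends' : E → Sym2 V} {S : Finset V} {U' U : Finset E} (h : Ord K ends' S U')
    (hcard : U'.card = K * (S.card - 1)) {v a b : V} (hv : v ∉ S) {e1 e2 : E} (he1 : e1 ∈ U') (he2 : e2 ∉ U')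
    (hab : ends' e1 = s(a, b)) (hag : ∀ f, f ≠ e1 → ends f = ends' f) (ha : ends e1 = s(v, a))
    (hb : ends e2 = s(v, b)) (haS : a ∈ S) (hbS : b ∈ S) (u : ZMod K → E) (i0 : ZMod K)
    (hu : ∀ k, k ≠ i0 → u k ∉ U' ∧ u k ≠ e2 ∧ ∃ d ∈ S, ends (u k) = s(v, d))
    (hU : ∀ e, e ∈ U ↔ e ∈ U' ∨ e = e2 ∨ ∃ k, k ≠ i0 ∧ u k = e) : Ord K ends (insert v S) U := by
  have : NeZero K := ⟨by omega⟩
  have : Fact (1 < K) := ⟨hK2⟩
  obtain ⟨L, hL, hm, hw⟩ := h
  obtain ⟨c0, hc0, k0, hk0⟩ := (hm e1).1 he1
  obtain ⟨A, B, rfl⟩ := List.append_of_mem hc0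
  have hne := cols_ne hm (by rw [hcard, ← hL, Nat.add_sub_cancel]) rfl
  have hK : ∀ q : ZMod K, q ≠ q + 1 := by
    intro q hq
    have : (1 : ZMod K) = 0 := by
      have := congrArg (fun x => x - q) hq
      simpa using this.symm
    exact one_ne_zero this
  have hu' : ∀ k, k ≠ k0 → u (k - k0 + i0) ∉ U' ∧ ∃ d ∈ S, ends (u (k - k0 + i0)) = s(v, d) := by
    intro k hk
    have := hu (k - k0 + i0) (by
      intro h'
      apply hk
      have h2 : k - k0 = 0 := by simpa using h'
      exact sub_eq_zero.1 h2)
    exact ⟨this.1, this.2.2⟩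
  have hUU : ∀ e, e ∈ U ↔ e ∈ U' ∨ e = e2 ∨ ∃ k, k ≠ k0 ∧ u (k - k0 + i0) = e := by
    intro e
    rw [hU]
    constructor
    · rintro (h' | h' | ⟨k, hk, h'⟩)
      · exact Or.inl h'
      · exact Or.inr (Or.inl h')
      · refine Or.inr (Or.inr ⟨k - i0 + k0, ?_, ?_⟩)
        · intro h''
          apply hk
          have h2 : k - i0 = 0 := by simpa using h''
          exact sub_eq_zero.1 h2
        · rw [show k - i0 + k0 - k0 + i0 = k by ring]
          exact h'
    · rintro (h' | h' | ⟨k, hk, h'⟩)
      · exact Or.inl h'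
      · exact Or.inr (Or.inl h')
      · refine Or.inr (Or.inr ⟨k - k0 + i0, ?_, h'⟩)
        intro h''
        apply hk
        have h2 : k - k0 = 0 := by simpa using h''
        exact sub_eq_zero.1 h2
  have hk1 : k0 - 1 ≠ k0 := by
    intro h'
    apply hK (k0 - 1)
    rw [sub_add_cancel]
    exact h'
  have hW := hw (k0 - 1) (A ++ [c0]) B (by simp)
  have h1W : e1 ∈ win (k0 - 1) (A ++ [c0]) B :=
    mem_win.2 (Or.inl ⟨c0, by simp, by rw [sub_add_cancel, hk0]⟩)
  have hWU : ∀ e ∈ win (k0 - 1) (A ++ [c0]) B, e ∈ U' := by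
    intro e he
    rw [hm]
    rcases mem_win.1 he with ⟨c, hc, rfl⟩ | ⟨c, hc, rfl⟩
    · refine ⟨c, ?_, _, rfl⟩
      rcases List.mem_append.1 hc with hc | hc
      · exact List.mem_append_left _ hc
      · rw [List.mem_singleton.1 hc]
        simp
    · exact ⟨c, List.mem_append_right _ (List.mem_cons_of_mem _ hc), _, rfl⟩
  obtain ⟨q1, d, hd, hde⟩ := hu' _ hk1
  have q2 : u (k0 - 1 - k0 + i0) ≠ e2 := (hu _ (by
    intro h'
    apply hk1
    have h2 : k0 - 1 - k0 = 0 := by simpa using h'
    exact sub_eq_zero.1 h2)).2.1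
  rcases special hW hv h1W (fun h' => he2 (hWU _ h')) (fun h' => q1 (hWU _ h')) q2 hab hag ha hb hd hde with hs | hs
  · exact ord_sub1 (u := fun k => u (k - k0 + i0)) hv (Or.inl ⟨rfl, rfl⟩) he2 hab hag ha hb haS hbS hk0 A B hL hm hw hne hu' hK hs hUU
  · exact ord_sub1 (u := fun k => u (k - k0 + i0)) hv (Or.inr ⟨rfl, rfl⟩) he2 hab hag ha hb haS hbS hk0 A B hL hm hw hne hu' hK hs hUU

end Pool.Agent.helper57.FLD
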