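import Pool.Agent.helper57.FLD.C

/-!
# Removing a vertex of degree at most `K + 1`
-/

set_option autoImplicit false

namespace Pool.Agent.helper57.FLD

open Finset

variable {V E : Type*} [DecidableEq V] [DecidableEq E] {K : ℕ}

/-- pairwise disjoint trees on `S` -/
def Inst {K : ℕ} (ends : E → Sym2 V) (S : Finset V) (T : ZMod K → Finset E) : Prop :=
  (∀ i, Tr ends S (T i)) ∧ ∀ i j, i ≠ j → Disjoint (T i) (T j)

/-- the number of the edges in `U` at `v` -/
def dg (ends : E → Sym2 V) (U : Finset E) (v : V) : ℕ := (U.filter (fun e => v ∈ ends e)).card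

/-- the union -/
def un {K : ℕ} [NeZero K] (T : ZMod K → Finset E) : Finset E := univ.biUnion T

omit [DecidableEq V] in
lemma mem_un [NeZero K] {T : ZMod K → Finset E} {e : E} : e ∈ un T ↔ ∃ i, e ∈ T i := by
  simp [un]

lemma other {ends : E → Sym2 V} {S : Finset V} {F : Finset E} (h : Tr ends S F) {e : E} (he : e ∈ F) {v : V}
    (hv : v ∈ ends e) : ∃ c ∈ S.erase v, ends e = s(v, c) := by
  obtain ⟨c, hc⟩ := hv
  have hcS : c ∈ S := h.ins e he c (by rw [hc]; exact Sym2.mem_mk_right v c)
  refine ⟨c, mem_erase.2 ⟨?_, hcS⟩, hc⟩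
  rintro rfl
  exact no_loop h he hc

lemma inc_ne {ends : E → Sym2 V} {S : Finset V} {F : Finset E} (h : Tr ends S F) {v : V} (hv : v ∈ S)
    (hS : 2 ≤ S.card) : (F.filter (fun e => v ∈ ends e)).Nonempty := by
  obtain ⟨e, he, x, y, hxy, hx, _⟩ := h.con {v} (by simpa using hv) ⟨v, mem_singleton_self v⟩ (by
    intro h'
    rw [← h', card_singleton] at hS
    omega)
  rw [mem_singleton] at hx
  subst hx
  exact ⟨e, mem_filter.2 ⟨he, by rw [hxy]; exact Sym2.mem_mk_left _ _⟩⟩

lemma card_un [NeZero K] {ends : E → Sym2 V} {S : Finset V} {T : ZMod K → Finset E} (h : Inst ends S T) :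
    (un T).card = K * (S.card - 1) := by
  unfold un
  rw [card_biUnion (fun i _ j _ hij => h.2 i j hij)]
  have : ∀ i ∈ (univ : Finset (ZMod K)), (T i).card = S.card - 1 := fun i _ => by
    have := (h.1 i).card
    omega
  rw [sum_congr rfl this, sum_const, card_univ, ZMod.card, smul_eq_mul]

lemma dg_un [NeZero K] {ends : E → Sym2 V} {S : Finset V} {T : ZMod K → Finset E} (h : Inst ends S T) (v : V) :
    dg ends (un T) v = ∑ i, ((T i).filter (fun e => v ∈ ends e)).card := by
  unfold dg un
  rw [filter_biUnion, card_biUnion]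
  intro i _ j _ hij
  exact (h.2 i j hij).mono (filter_subset _ _) (filter_subset _ _)

lemma sum_dg (ends : E → Sym2 V) (S : Finset V) (U : Finset E) : ∑ v ∈ S, dg ends U v ≤ 2 * U.card := by
  unfold dg
  have h1 : ∑ v ∈ S, (U.filter (fun e => v ∈ ends e)).card = ∑ e ∈ U, (S.filter (fun v => v ∈ ends e)).card := by
    simp only [card_filter]
    exact sum_comm
  rw [h1, mul_comm]
  refine sum_le_card_nsmul _ _ 2 fun e _ => ?_
  induction h : ends e with
  | _ x y =>
    calc (S.filter (fun v => v ∈ s(x, y))).card ≤ ({x, y} : Finset V).card := by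
          refine card_le_card fun z hz => ?_
          have := (mem_filter.1 hz).2
          rw [Sym2.mem_iff] at this
          simpa using this
      _ ≤ 2 := card_le_two

/-- numbers `≥ 1` with a sum `≤ K + 1` -/
lemma one_or_two [NeZero K] (g : ZMod K → ℕ) (h1 : ∀ i, 1 ≤ g i) (h2 : ∑ i, g i ≤ K + 1) :
    (∀ i, g i = 1) ∨ ∃ i0, g i0 = 2 ∧ ∀ i, i ≠ i0 → g i = 1 := by
  by_cases hall : ∀ i, g i = 1
  · exact Or.inl hall
  · right
    push Not at hall
    obtain ⟨i0, hi0⟩ := hall
    have hs : ∑ i, (g i - 1) ≤ 1 := by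
      have h3 : ∑ i, g i = ∑ i, (g i - 1) + ∑ _i : ZMod K, 1 := by
        rw [← sum_add_distrib]
        exact sum_congr rfl fun i _ => by have := h1 i; omega
      rw [sum_const, card_univ, ZMod.card, smul_eq_mul, mul_one] at h3
      omega
    have h4 : ∀ i, i ≠ i0 → (g i - 1) + (g i0 - 1) ≤ 1 := by
      intro i hi
      have : ∑ j ∈ ({i, i0} : Finset (ZMod K)), (g j - 1) ≤ ∑ j, (g j - 1) :=
        sum_le_sum_of_subset (subset_univ _)
      rw [sum_pair hi] at this
      omega
    have h5 : g i0 - 1 ≤ 1 := (single_le_sum (f := fun i => g i - 1) (fun _ _ => Nat.zero_le _) (mem_univ i0)).trans hs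
    have h6 := h1 i0
    refine ⟨i0, by omega, fun i hi => ?_⟩
    have := h4 i hi
    have := h1 i
    omega

/-- the reduction -/
lemma step (hK : 2 ≤ K) [NeZero K] {ends : E → Sym2 V} {S : Finset V} {T : ZMod K → Finset E} (h : Inst ends S T)
    {v : V} (hv : v ∈ S) (hS : 2 ≤ S.card) (hd : dg ends (un T) v ≤ K + 1) :
    ∃ (ends' : E → Sym2 V) (T' : ZMod K → Finset E), Inst ends' (S.erase v) T' ∧
      (∀ w ∈ S.erase v, dg ends' (un T') w ≤ dg ends (un T) w) ∧
      (∀ e ∈ un T', (e ∈ un T ∧ ends' e = ends e) ∨ ∃ a b, ends' e = s(a, b) ∧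
        (∃ f ∈ un T, ends f = s(v, a)) ∧ ∃ f ∈ un T, ends f = s(v, b)) ∧
      (Ord K ends' (S.erase v) (un T') → Ord K ends S (un T)) := by
  have hSv : insert v (S.erase v) = S := insert_erase hv
  have hvS : v ∉ S.erase v := notMem_erase _ _
  have h1 : ∀ i, 1 ≤ ((T i).filter (fun e => v ∈ ends e)).card := fun i =>
    card_pos.2 (inc_ne (h.1 i) hv hS)
  rw [dg_un h] at hd
  have hdis : ∀ i j e, e ∈ T i → e ∈ T j → i = j := by
    intro i j e hi hj
    by_contra hij
    exact disjoint_left.1 (h.2 i j hij) hi hj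
  rcases one_or_two _ h1 hd with hall | ⟨i0, hi0, hoth⟩
  · have hu : ∀ i, ∃ u, (T i).filter (fun e => v ∈ ends e) = {u} := fun i => card_eq_one.1 (hall i)
    choose u hu using hu
    have hu1 : ∀ i, u i ∈ T i ∧ v ∈ ends (u i) := fun i => by
      have h' : u i ∈ (T i).filter (fun e => v ∈ ends e) := by rw [hu i]; exact mem_singleton_self _
      exact mem_filter.1 h'
    have hu2 : ∀ i, ∀ e ∈ T i, v ∈ ends e → e = u i := fun i e he hve => by
      have : e ∈ (T i).filter (fun e => v ∈ ends e) := mem_filter.2 ⟨he, hve⟩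
      rw [hu i] at this
      exact mem_singleton.1 this
    refine ⟨ends, fun i => (T i).erase (u i), ⟨fun i => ?_, fun i j hij => ?_⟩, fun w _ => ?_,
      fun e he => Or.inl ⟨?_, rfl⟩, fun hO => ?_⟩
    · obtain ⟨c, _, hce⟩ := other (h.1 i) (hu1 i).1 (hu1 i).2
      exact unleaf hvS (by rw [hSv]; exact h.1 i) (hu1 i).1 hce (hu2 i)
    · exact (h.2 i j hij).mono (erase_subset _ _) (erase_subset _ _)
    · unfold dg
      refine card_le_card fun e he => ?_
      obtain ⟨he1, he2⟩ := mem_filter.1 he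
      obtain ⟨i, hi⟩ := mem_un.1 he1
      exact mem_filter.2 ⟨mem_un.2 ⟨i, mem_of_mem_erase hi⟩, he2⟩
    · obtain ⟨i, hi⟩ := mem_un.1 he
      exact mem_un.2 ⟨i, mem_of_mem_erase hi⟩
    · rw [← hSv]
      refine ord_leaf hO hvS u (fun k hk => ?_) (fun k => other (h.1 k) (hu1 k).1 (hu1 k).2) (fun e => ?_)
      · obtain ⟨j, hj⟩ := mem_un.1 hk
        have := hdis k j _ (hu1 k).1 (mem_of_mem_erase hj)
        subst this
        exact (ne_of_mem_erase hj) rfl
      · rw [mem_un, mem_un]
        constructor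
        · rintro ⟨i, hi⟩
          by_cases hiu : e = u i
          · exact Or.inr ⟨i, hiu.symm⟩
          · exact Or.inl ⟨i, mem_erase.2 ⟨hiu, hi⟩⟩
        · rintro (⟨i, hi⟩ | ⟨k, rfl⟩)
          · exact ⟨i, mem_of_mem_erase hi⟩
          · exact ⟨k, (hu1 k).1⟩
  · obtain ⟨e1, e2, h12, hF⟩ := card_eq_two.1 hi0
    have he1' : e1 ∈ (T i0).filter (fun e => v ∈ ends e) := by rw [hF]; simp
    have he2' : e2 ∈ (T i0).filter (fun e => v ∈ ends e) := by rw [hF]; simp
    have he1 : e1 ∈ T i0 ∧ v ∈ ends e1 := mem_filter.1 he1'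
    have he2 : e2 ∈ T i0 ∧ v ∈ ends e2 := mem_filter.1 he2'
    have he12 : ∀ e ∈ T i0, v ∈ ends e → e = e1 ∨ e = e2 := fun e he hve => by
      have : e ∈ (T i0).filter (fun e => v ∈ ends e) := mem_filter.2 ⟨he, hve⟩
      rw [hF] at this
      simpa using this
    obtain ⟨a, haS, ha⟩ := other (h.1 i0) he1.1 he1.2
    obtain ⟨b, hbS, hb⟩ := other (h.1 i0) he2.1 he2.2
    have hu : ∀ i, ∃ u, i ≠ i0 → (T i).filter (fun e => v ∈ ends e) = {u} := fun i => by
      by_cases hi : i = i0
      · exact ⟨e1, fun h' => absurd hi h'⟩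
      · obtain ⟨u, hu⟩ := card_eq_one.1 (hoth i hi)
        exact ⟨u, fun _ => hu⟩
    choose u hu using hu
    have hu1 : ∀ i, i ≠ i0 → u i ∈ T i ∧ v ∈ ends (u i) := fun i hi => by
      have h' : u i ∈ (T i).filter (fun e => v ∈ ends e) := by rw [hu i hi]; exact mem_singleton_self _
      exact mem_filter.1 h'
    have hu2 : ∀ i, i ≠ i0 → ∀ e ∈ T i, v ∈ ends e → e = u i := fun i hi e he hve => by
      have : e ∈ (T i).filter (fun e => v ∈ ends e) := mem_filter.2 ⟨he, hve⟩
      rw [hu i hi] at this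
      exact mem_singleton.1 this
    have hag : ∀ f, f ≠ e1 → ends f = Function.update ends e1 s(a, b) f := fun f hf => by
      rw [Function.update_of_ne hf]
    have hab : Function.update ends e1 s(a, b) e1 = s(a, b) := Function.update_self _ _ _
    have hT' : ∀ i e, e ∈ (if i = i0 then (T i0).erase e2 else (T i).erase (u i)) → e ∈ T i := by
      intro i e he
      by_cases hi : i = i0
      · rw [if_pos hi] at he
        rw [hi]
        exact mem_of_mem_erase he
      · rw [if_neg hi] at he
        exact mem_of_mem_erase he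
    have hI : Inst (Function.update ends e1 s(a, b)) (S.erase v)
        (fun i => if i = i0 then (T i0).erase e2 else (T i).erase (u i)) := by
      refine ⟨fun i => ?_, fun i j hij => ?_⟩
      · by_cases hi : i = i0
        · simp only [if_pos hi]
          exact unsubd hvS (by rw [hSv]; exact h.1 i0) he1.1 he2.1 h12 hab hag ha hb haS hbS he12
        · simp only [if_neg hi]
          obtain ⟨c, _, hce⟩ := other (h.1 i) (hu1 i hi).1 (hu1 i hi).2
          refine tr_congr (unleaf hvS (by rw [hSv]; exact h.1 i) (hu1 i hi).1 hce (hu2 i hi)) fun f hf => ?_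
          refine (hag f ?_).symm
          rintro rfl
          exact hi (hdis i i0 f (mem_of_mem_erase hf) he1.1)
      · refine disjoint_left.2 fun e hei hej => ?_
        exact hij (hdis i j e (hT' i e hei) (hT' j e hej))
    refine ⟨Function.update ends e1 s(a, b), fun i => if i = i0 then (T i0).erase e2 else (T i).erase (u i), hI,
      fun w hw => ?_, fun e he => ?_, fun hO => ?_⟩
    · unfold dg
      by_cases hwb : w = b
      · have hsub : (un fun i => if i = i0 then (T i0).erase e2 else (T i).erase (u i)).filter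
            (fun e => w ∈ Function.update ends e1 s(a, b) e) ⊆
            insert e1 (((un T).filter (fun e => w ∈ ends e)).erase e2) := by
          intro e he
          obtain ⟨q1, q2⟩ := mem_filter.1 he
          obtain ⟨i, hi⟩ := mem_un.1 q1
          by_cases hee : e = e1
          · exact mem_insert.2 (Or.inl hee)
          · refine mem_insert_of_mem (mem_erase.2 ⟨?_, mem_filter.2 ⟨mem_un.2 ⟨i, hT' i e hi⟩, by rw [hag e hee]; exact q2⟩⟩)
            rintro rfl
            have := hdis i i0 e (hT' i e hi) he2.1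
            rw [if_pos this] at hi
            exact (ne_of_mem_erase hi) rfl
        have hmem : e2 ∈ (un T).filter (fun e => w ∈ ends e) :=
          mem_filter.2 ⟨mem_un.2 ⟨i0, he2.1⟩, by rw [hb, hwb]; exact Sym2.mem_mk_right _ _⟩
        calc _ ≤ (insert e1 (((un T).filter (fun e => w ∈ ends e)).erase e2)).card := card_le_card hsub
          _ ≤ (((un T).filter (fun e => w ∈ ends e)).erase e2).card + 1 := card_insert_le _ _
          _ = ((un T).filter (fun e => w ∈ ends e)).card := by
            rw [card_erase_of_mem hmem]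
            have := card_pos.2 ⟨e2, hmem⟩
            omega
      · refine card_le_card fun e he => ?_
        obtain ⟨q1, q2⟩ := mem_filter.1 he
        obtain ⟨i, hi⟩ := mem_un.1 q1
        refine mem_filter.2 ⟨mem_un.2 ⟨i, hT' i e hi⟩, ?_⟩
        by_cases hee : e = e1
        · subst hee
          rw [hab, Sym2.mem_iff] at q2
          rcases q2 with q2 | q2
          · rw [ha, q2]
            exact Sym2.mem_mk_right _ _
          · exact absurd q2 hwb
        · rw [hag e hee]
          exact q2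
    · obtain ⟨i, hi⟩ := mem_un.1 he
      by_cases hee : e = e1
      · refine Or.inr ⟨a, b, by rw [hee]; exact hab, ⟨e1, mem_un.2 ⟨i0, he1.1⟩, ha⟩, e2, mem_un.2 ⟨i0, he2.1⟩, hb⟩
      · exact Or.inl ⟨mem_un.2 ⟨i, hT' i e hi⟩, (hag e hee).symm⟩
    · rw [← hSv]
      refine ord_sub hK hO (card_un hI) hvS (e1 := e1) (e2 := e2) (mem_un.2 ⟨i0, ?_⟩) ?_ hab hag ha hb haS hbS u i0
        (fun k hk => ⟨?_, ?_, other (h.1 k) (hu1 k hk).1 (hu1 k hk).2⟩) (fun e => ?_)
      · rw [if_pos rfl]
        exact mem_erase.2 ⟨h12, he1.1⟩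
      · intro h'
        obtain ⟨i, hi⟩ := mem_un.1 h'
        have := hdis i i0 e2 (hT' i e2 hi) he2.1
        rw [if_pos this] at hi
        exact (ne_of_mem_erase hi) rfl
      · intro h'
        obtain ⟨i, hi⟩ := mem_un.1 h'
        have := hdis i k _ (hT' i _ hi) (hu1 k hk).1
        subst this
        rw [if_neg hk] at hi
        exact (ne_of_mem_erase hi) rfl
      · intro h'
        have h2 := (hu1 k hk).1
        rw [h'] at h2
        exact hk (hdis k i0 e2 h2 he2.1)
      · rw [mem_un, mem_un]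
        constructor
        · rintro ⟨i, hi⟩
          by_cases hi0' : i = i0
          · subst hi0'
            by_cases hee : e = e2
            · exact Or.inr (Or.inl hee)
            · refine Or.inl ⟨i, ?_⟩
              rw [if_pos rfl]
              exact mem_erase.2 ⟨hee, hi⟩
          · by_cases hiu : e = u i
            · exact Or.inr (Or.inr ⟨i, hi0', hiu.symm⟩)
            · refine Or.inl ⟨i, ?_⟩
              rw [if_neg hi0']
              exact mem_erase.2 ⟨hiu, hi⟩
        · rintro (⟨i, hi⟩ | rfl | ⟨k, hk, rfl⟩)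
          · exact ⟨i, hT' i e hi⟩
          · exact ⟨i0, he2.1⟩
          · exact ⟨k, (hu1 k hk).1⟩

/-- one vertex -/
lemma ord_one [NeZero K] {ends : E → Sym2 V} {S : Finset V} {T : ZMod K → Finset E} (h : Inst ends S T)
    (hS : S.card = 1) : Ord K ends S (un T) := by
  have h0 : ∀ i, T i = ∅ := fun i => card_eq_zero.1 (by have := (h.1 i).card; omega)
  refine ⟨[], by simp [hS], fun e => ?_, fun q L1 L2 hL => ?_⟩
  · rw [mem_un]
    simp [h0]
  · obtain ⟨rfl, rfl⟩ := List.nil_eq_append_iff.1 hL
    have h1 := h.1 0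
    rw [h0 0] at h1
    simpa [win] using h1

/-- few vertices of large degree -/
theorem few (hK : 2 ≤ K) [NeZero K] (n : ℕ) : ∀ (ends : E → Sym2 V) (S : Finset V) (T : ZMod K → Finset E),
    S.card = n + 1 → Inst ends S T → (K - 2) * (S.filter (fun v => K + 2 ≤ dg ends (un T) v)).card < 2 * K →
    Ord K ends S (un T) := by
  induction n with
  | zero =>
    intro ends S T hS h _
    exact ord_one h hS
  | succ n ih =>
    intro ends S T hS h hf
    obtain ⟨v, hv, hvd⟩ : ∃ v ∈ S, dg ends (un T) v ≤ K + 1 := by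
      by_contra hcon
      push Not at hcon
      have h1 : S.filter (fun v => K + 2 ≤ dg ends (un T) v) = S :=
        filter_true_of_mem fun v hv => hcon v hv
      rw [h1] at hf
      have h2 : (K + 2) * S.card ≤ ∑ v ∈ S, dg ends (un T) v := by
        rw [mul_comm, ← smul_eq_mul]
        exact card_nsmul_le_sum _ _ _ fun v hv => hcon v hv
      have h3 := sum_dg ends S (un T)
      rw [card_un h] at h3
      obtain ⟨k, rfl⟩ : ∃ k, K = k + 2 := ⟨K - 2, by omega⟩
      rw [hS] at hf h2 h3
      rw [Nat.add_sub_cancel] at hf h3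
      nlinarith
    obtain ⟨ends', T', hI, hdle, _, hO⟩ := step hK h hv (by omega) hvd
    refine hO (ih ends' (S.erase v) T' (by rw [card_erase_of_mem hv]; omega) hI (lt_of_le_of_lt ?_ hf))
    refine Nat.mul_le_mul_left _ (card_le_card fun w hw => ?_)
    obtain ⟨hw1, hw2⟩ := mem_filter.1 hw
    exact mem_filter.2 ⟨mem_of_mem_erase hw1, hw2.trans (hdle w hw1)⟩

end Pool.Agent.helper57.FLD
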