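import Pool.Agent.helper57.FLD.D
import Pool.Agent.helper58.ECO.G

/-!
# Spanning trees by connectivity, and the ordering as a periodic sequence
-/

set_option autoImplicit false

namespace Pool.Agent.helper57.FLD

open Finset

section tr

variable {V E : Type*} [DecidableEq V] [DecidableEq E] [Fintype V]

omit [DecidableEq E] [DecidableEq V] in
lemma tr_of {ends : E → Sym2 V} {F : Finset E} (h : ECO.IsSpanningTree ends (F : Set E)) : Tr ends univ F := by
  refine ⟨fun e _ x _ => mem_univ x, fun A _ hn hS => ?_, ?_⟩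
  · obtain ⟨x, hx⟩ := hn
    obtain ⟨y, hy⟩ : ∃ y, y ∉ A := by
      by_contra hc
      push Not at hc
      exact hS (eq_univ_iff_forall.2 hc)
    obtain ⟨p⟩ := h.1.preconnected x y
    obtain ⟨d, _, hd1, hd2⟩ := p.exists_boundary_dart (A : Set V) hx hy
    have h1 := d.adj
    rw [SimpleGraph.fromEdgeSet_adj] at h1
    obtain ⟨⟨e, he, hee⟩, _⟩ := h1
    exact ⟨e, he, _, _, hee, hd1, hd2⟩
  · have h2 := h.2
    rw [Set.ncard_coe_finset] at h2
    rw [card_univ]
    exact h2

omit [DecidableEq E] [DecidableEq V] in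
lemma tree_of {ends : E → Sym2 V} {F : Finset E} (h : Tr ends univ F) : ECO.IsSpanningTree ends (F : Set E) := by
  classical
  refine ⟨?_, ?_⟩
  · have hne : Nonempty V := by
      obtain ⟨x, _⟩ := tr_ne h
      exact ⟨x⟩
    refine SimpleGraph.Connected.mk (fun x y => ?_)
    by_contra hxy
    obtain ⟨e, he, p, q, hpq, hp, hq⟩ := h.con
      (univ.filter fun z => (SimpleGraph.fromEdgeSet (ends '' (F : Set E))).Reachable x z) (subset_univ _)
      ⟨x, by simp⟩ (fun h' => hxy (by
        have := mem_univ y
        rw [← h'] at this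
        exact (mem_filter.1 this).2))
    have h1 := (mem_filter.1 hp).2
    refine hq (mem_filter.2 ⟨mem_univ _, h1.trans ?_⟩)
    by_cases hpq' : p = q
    · rw [hpq']
    · refine SimpleGraph.Adj.reachable ?_
      rw [SimpleGraph.fromEdgeSet_adj]
      exact ⟨⟨e, he, hpq⟩, hpq'⟩
  · rw [Set.ncard_coe_finset, ← card_univ]
    exact h.card

/-- the periodic sequence belonging to the columns -/
theorem conv {ends : E → Sym2 V} {K : ℕ} [NeZero K] (hV : 2 ≤ Fintype.card V) {T : ZMod K → Finset E}
    (hI : Inst ends univ T) (hO : Ord K ends univ (un T)) :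
    ∃ e : ℕ → E, (∀ j, e (j + K * (Fintype.card V - 1)) = e j) ∧
      Set.BijOn e (Set.Iio (K * (Fintype.card V - 1))) (un T : Set E) ∧
      ∀ j, ECO.IsSpanningTree ends (e '' Set.Ico j (j + (Fintype.card V - 1))) := by
  obtain ⟨L, hL, hmem, hwin⟩ := hO
  rw [card_univ] at hL
  obtain ⟨N, hN⟩ : ∃ N, N = Fintype.card V - 1 := ⟨_, rfl⟩
  have hLN : L.length = N := by omega
  have hN0 : 0 < N := by omega
  rw [← hN]
  set e : ℕ → E := fun j => (L[j % N]'(by rw [hLN]; exact Nat.mod_lt _ hN0)) ((j / N : ℕ) : ZMod K) with he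
  have hee : ∀ (a i : ℕ) (hi : i < N), e (N * a + i) = (L[i]'(by omega)) (a : ZMod K) := by
    intro a i hi
    have h1 : (N * a + i) % N = i := by rw [Nat.mul_add_mod, Nat.mod_eq_of_lt hi]
    have h2 : (N * a + i) / N = a := by
      rw [Nat.mul_add_div hN0, Nat.div_eq_of_lt hi, add_zero]
    have h3 : ∀ (m : ℕ) (hm : m < L.length), m = i → L[m] = (L[i]'(by omega)) := by
      rintro m hm rfl
      rfl
    rw [he]
    simp only [h2]
    exact congrFun (h3 _ _ h1) _
  have hdec : ∀ j : ℕ, N * (j / N) + j % N = j := fun j => Nat.div_add_mod j N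
  have hper : ∀ j, e (j + K * N) = e j := by
    intro j
    have h1 : j + K * N = N * (j / N + K) + j % N := by
      have := hdec j
      rw [mul_add, mul_comm K N]
      omega
    conv_rhs => rw [← hdec j]
    rw [h1, hee _ _ (Nat.mod_lt _ hN0), hee _ _ (Nat.mod_lt _ hN0)]
    simp
  have himg : (range (K * N)).image e = un T := by
    ext x
    rw [hmem, mem_image]
    constructor
    · rintro ⟨j, _, rfl⟩
      exact ⟨_, List.getElem_mem _, _, rfl⟩
    · rintro ⟨c, hc, k, rfl⟩
      obtain ⟨i, hi, rfl⟩ := List.getElem_of_mem hc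
      rw [hLN] at hi
      refine ⟨N * k.val + i, ?_, ?_⟩
      · rw [mem_range]
        have := ZMod.val_lt k
        calc N * k.val + i < N * k.val + N := by omega
          _ = N * (k.val + 1) := by ring
          _ ≤ N * K := Nat.mul_le_mul_left _ this
          _ = K * N := mul_comm _ _
      · rw [hee _ _ hi, ZMod.natCast_zmod_val]
  refine ⟨e, hper, ⟨?_, ?_, ?_⟩, ?_⟩
  · intro j hj
    have : e j ∈ (range (K * N)).image e := mem_image_of_mem _ (mem_range.2 hj)
    rw [himg] at this
    exact this
  · have h1 : ((range (K * N)).image e).card = (range (K * N)).card := by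
      rw [himg, card_un hI, card_range, card_univ, hN]
    have h2 := card_image_iff.1 h1
    intro x hx y hy hxy
    exact h2 (by simpa using hx) (by simpa using hy) hxy
  · intro x hx
    have hx' : x ∈ (range (K * N)).image e := by rw [himg]; exact hx
    obtain ⟨j, hj, rfl⟩ := mem_image.1 hx'
    exact ⟨j, mem_range.1 hj, rfl⟩
  · intro j
    have hr := Nat.mod_lt j hN0
    have h1 := hwin ((j / N : ℕ) : ZMod K) (L.take (j % N)) (L.drop (j % N)) (List.take_append_drop _ _).symm
    have h2 : e '' Set.Ico j (j + N) = (win ((j / N : ℕ) : ZMod K) (L.take (j % N)) (L.drop (j % N)) : Set E) := by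
      ext x
      rw [mem_coe, mem_win]
      constructor
      · rintro ⟨j', ⟨hj1, hj2⟩, rfl⟩
        have hd := hdec j
        by_cases hc : j' < N * (j / N) + N
        · right
          obtain ⟨i, hi⟩ : ∃ i, j' = N * (j / N) + i := ⟨j' - N * (j / N), by omega⟩
          have hiN : i < N := by omega
          refine ⟨L[i]'(by omega), ?_, ((congrArg e hi).trans (hee _ _ hiN)).symm⟩
          refine List.mem_iff_getElem.2 ⟨i - j % N, ?_, ?_⟩
          · rw [List.length_drop]
            omega
          · rw [List.getElem_drop]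
            congr 1
            omega
        · left
          obtain ⟨i, hi⟩ : ∃ i, j' = N * (j / N + 1) + i := ⟨j' - N * (j / N + 1), by rw [mul_add]; omega⟩
          have hiN : i < j % N := by rw [mul_add] at hi; omega
          refine ⟨L[i]'(by omega), ?_, ((congrArg e hi).trans ((hee _ _ (by omega)).trans (by push_cast; rfl))).symm⟩
          refine List.mem_iff_getElem.2 ⟨i, ?_, ?_⟩
          · rw [List.length_take]
            omega
          · rw [List.getElem_take]
      · rintro (⟨c, hc, rfl⟩ | ⟨c, hc, rfl⟩)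
        · obtain ⟨i, hi, rfl⟩ := List.mem_iff_getElem.1 hc
          rw [List.length_take] at hi
          have hd := hdec j
          refine ⟨N * (j / N + 1) + i, ⟨by rw [mul_add]; omega, by rw [mul_add]; omega⟩, ?_⟩
          rw [hee _ _ (by omega), List.getElem_take]
          push_cast
          rfl
        · obtain ⟨i, hi, rfl⟩ := List.mem_iff_getElem.1 hc
          rw [List.length_drop] at hi
          have hd := hdec j
          refine ⟨N * (j / N) + (j % N + i), ⟨by omega, by omega⟩, ?_⟩
          rw [hee _ _ (by omega), List.getElem_drop]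
    rw [h2]
    exact tree_of h1

end tr

/-- few vertices of large degree, for periodic sequences -/
theorem few_final {V E : Type*} [Fintype V] [Finite E] (ends : E → Sym2 V) (hV : 2 ≤ Fintype.card V)
    (K : ℕ) (hK : 2 ≤ K) (T : Fin K → Set E) (hT : ∀ i, ECO.IsSpanningTree ends (T i))
    (hdis : ∀ i j, i ≠ j → Disjoint (T i) (T j))
    (hB : (K - 2) * {v : V | K + 2 ≤ {x ∈ ⋃ i, T i | v ∈ ends x}.ncard}.ncard < 2 * K) :
    ∃ e : ℕ → E, (∀ j, e (j + K * (Fintype.card V - 1)) = e j) ∧
      Set.BijOn e (Set.Iio (K * (Fintype.card V - 1))) (⋃ i, T i) ∧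
      ∀ j, ECO.IsSpanningTree ends (e '' Set.Ico j (j + (Fintype.card V - 1))) := by
  classical
  obtain ⟨k, rfl⟩ : ∃ k, K = k + 1 := ⟨K - 1, by omega⟩
  have hfin : ∀ i, (T i).Finite := fun i => Set.toFinite _
  set T' : ZMod (k + 1) → Finset E := fun i => (hfin i).toFinset with hT'
  have hun : (un T' : Set E) = ⋃ i, T i := by
    ext x
    rw [mem_coe, mem_un, Set.mem_iUnion]
    constructor
    · rintro ⟨i, hi⟩
      exact ⟨i, (hfin i).mem_toFinset.1 hi⟩
    · rintro ⟨i, hi⟩
      exact ⟨i, (hfin i).mem_toFinset.2 hi⟩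
  have hI : Inst ends univ T' := by
    refine ⟨fun i => tr_of ?_, fun i j hij => ?_⟩
    · rw [hT', (hfin i).coe_toFinset]
      exact hT i
    · rw [← disjoint_coe, hT', (hfin i).coe_toFinset, (hfin j).coe_toFinset]
      exact hdis i j hij
  rw [← hun]
  refine conv hV hI (few hK (Fintype.card V - 1) ends univ T' (by rw [card_univ]; omega) hI ?_)
  have h1 : ({v : V | k + 1 + 2 ≤ {x ∈ ⋃ i, T i | v ∈ ends x}.ncard} : Set V) =
      ((univ.filter fun v => k + 1 + 2 ≤ dg ends (un T') v : Finset V) : Set V) := by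
    ext v
    rw [mem_coe, mem_filter, Set.mem_ofPred_eq]
    have h2 : ({x ∈ ⋃ i, T i | v ∈ ends x} : Set E) = (((un T').filter (fun e => v ∈ ends e) : Finset E) : Set E) := by
      ext x
      rw [mem_coe, mem_filter, ← mem_coe (s := un T'), hun]
      rfl
    rw [h2, Set.ncard_coe_finset]
    unfold dg
    simp
  rw [h1, Set.ncard_coe_finset] at hB
  exact hB

end Pool.Agent.helper57.FLD
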