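import Pool.Agent.helper57.FLD.D

/-!
# Insertion of a vertex with two neighbours
-/

set_option autoImplicit false

namespace Pool.Agent.helper57.FLD

open Finset

section assign

variable {K : ℕ}

/-- a boolean function on the cycle which is constant across the gaps in `M`, with a prescribed number -/
lemma assign [NeZero K] (M : Finset (ZMod K)) (p : ℕ) (h1 : M.card ≤ p) (h2 : p ≤ K) :
    ∃ y : ZMod K → Bool, (∀ q ∈ M, y (q + 1) = y q) ∧
      (univ.filter (fun k => y k = true)).card + (M.filter (fun k => y k = false)).card = p := by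
  classical
  by_cases hM : M = univ
  · refine ⟨fun _ => true, fun _ _ => rfl, ?_⟩
    have h3 : M.card = K := by rw [hM, card_univ, ZMod.card]
    have h4 : (univ.filter (fun k : ZMod K => true = true)).card = K := by
      rw [filter_true_of_mem (fun _ _ => rfl), card_univ, ZMod.card]
    have h5 : (M.filter (fun k => true = false)).card = 0 := by
      rw [card_eq_zero, filter_eq_empty_iff]
      intro x _ h
      cases h
    rw [h4, h5]
    omega
  · obtain ⟨m0, hm0⟩ : ∃ m0, m0 ∉ M := by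
      by_contra h
      push Not at h
      exact hM (eq_univ_iff_forall.2 h)
    obtain ⟨F, hF⟩ : ∃ F : Finset (ZMod K), ∀ q, q ∈ F ↔ q - 1 ∉ M :=
      ⟨univ.filter (fun q => q - 1 ∉ M), fun q => by simp⟩
    have hFi : F = Mᶜ.image (fun q => q + 1) := by
      ext q
      rw [hF, mem_image]
      constructor
      · intro h
        exact ⟨q - 1, mem_compl.2 h, sub_add_cancel _ _⟩
      · rintro ⟨r, hr, rfl⟩
        rw [add_sub_cancel_right]
        exact mem_compl.1 hr
    have hFc : F.card = K - M.card := by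
      rw [hFi, card_image_of_injective _ (add_left_injective 1), card_compl, ZMod.card]
    obtain ⟨A, hAF, hA⟩ := exists_subset_card_eq (s := F) (n := p - M.card) (by omega)
    let Y : ℕ → Bool := fun n => Nat.rec (motive := fun _ => Bool) (decide (m0 + 1 ∈ A))
      (fun n r => if (m0 + 1 + (n : ZMod K)) ∈ M then r else decide (m0 + 1 + ((n + 1 : ℕ) : ZMod K) ∈ A)) n
    have hY0 : Y 0 = decide (m0 + 1 ∈ A) := rfl
    have hYs : ∀ n, Y (n + 1) = if (m0 + 1 + (n : ZMod K)) ∈ M then Y n else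
        decide (m0 + 1 + ((n + 1 : ℕ) : ZMod K) ∈ A) := fun n => rfl
    have hc : ∀ q ∈ M, Y (q + 1 - (m0 + 1)).val = Y (q - (m0 + 1)).val := by
      intro q hq
      have hn : (((q - (m0 + 1)).val : ℕ) : ZMod K) = q - (m0 + 1) := ZMod.natCast_zmod_val _
      have hlt := ZMod.val_lt (q - (m0 + 1))
      have hne : (q - (m0 + 1)).val + 1 ≠ K := by
        intro h
        have h3 : (((q - (m0 + 1)).val + 1 : ℕ) : ZMod K) = 0 := by rw [h]; exact ZMod.natCast_self K
        push_cast at h3
        rw [hn] at h3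
        have h4 : q = m0 := by
          have : q - m0 = 0 := by rw [← h3]; ring
          exact sub_eq_zero.1 this
        rw [h4] at hq
        exact hm0 hq
      have h5 : (q + 1 - (m0 + 1)).val = (q - (m0 + 1)).val + 1 := by
        have h6 : q + 1 - (m0 + 1) = (((q - (m0 + 1)).val + 1 : ℕ) : ZMod K) := by
          push_cast
          rw [hn]
          ring
        rw [h6, ZMod.val_natCast, Nat.mod_eq_of_lt (by omega)]
      rw [h5, hYs, if_pos]
      rw [hn]
      rw [show m0 + 1 + (q - (m0 + 1)) = q by ring]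
      exact hq
    have hf : ∀ q ∈ F, Y (q - (m0 + 1)).val = decide (q ∈ A) := by
      intro q hq
      have hn : (((q - (m0 + 1)).val : ℕ) : ZMod K) = q - (m0 + 1) := ZMod.natCast_zmod_val _
      rcases Nat.eq_zero_or_pos (q - (m0 + 1)).val with h0 | h0
      · rw [h0, hY0]
        rw [h0, Nat.cast_zero] at hn
        rw [← sub_eq_zero.1 hn.symm]
      · obtain ⟨n, hn'⟩ : ∃ n, (q - (m0 + 1)).val = n + 1 := ⟨(q - (m0 + 1)).val - 1, by omega⟩
        rw [hn'] at hn
        rw [hn', hYs, if_neg, hn]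
        · rw [show m0 + 1 + (q - (m0 + 1)) = q by ring]
        · have h7 : m0 + 1 + (n : ZMod K) = q - 1 := by
            push_cast at hn
            have : (n : ZMod K) = q - (m0 + 1) - 1 := by rw [← hn]; ring
            rw [this]
            ring
          rw [h7]
          exact (hF q).1 hq
    refine ⟨fun j => Y (j - (m0 + 1)).val, hc, ?_⟩
    obtain ⟨y, hy⟩ : ∃ y : ZMod K → Bool, ∀ j, y j = Y (j - (m0 + 1)).val := ⟨fun j => Y (j - (m0 + 1)).val, fun _ => rfl⟩
    simp only [← hy] at hc hf ⊢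
    have e1 : univ.filter (fun k => y k = true) = A ∪ (M.filter (fun k => y k = true)).image (fun q => q + 1) := by
      ext q
      simp only [mem_filter, mem_univ, true_and, mem_union, mem_image]
      by_cases hq : q ∈ F
      · rw [hf q hq, decide_eq_true_iff]
        constructor
        · exact Or.inl
        · rintro (h | ⟨r, ⟨hr, _⟩, rfl⟩)
          · exact h
          · exact absurd hr (by have := (hF _).1 hq; rwa [add_sub_cancel_right] at this)
      · have hq' : q - 1 ∈ M := by
          by_contra h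
          exact hq ((hF q).2 h)
        have h8 := hc _ hq'
        rw [sub_add_cancel] at h8
        rw [h8]
        constructor
        · intro h
          exact Or.inr ⟨q - 1, ⟨hq', h⟩, sub_add_cancel _ _⟩
        · rintro (h | ⟨r, ⟨hr, hr'⟩, rfl⟩)
          · exact absurd (hAF h) hq
          · rw [add_sub_cancel_right]
            exact hr'
    have e2 : Disjoint A ((M.filter (fun k => y k = true)).image (fun q => q + 1)) := by
      rw [disjoint_left]
      intro q hq hq'
      obtain ⟨r, hr, rfl⟩ := mem_image.1 hq'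
      have := (hF _).1 (hAF hq)
      rw [add_sub_cancel_right] at this
      exact this (mem_filter.1 hr).1
    rw [e1, card_union_of_disjoint e2, card_image_of_injective _ (add_left_injective 1), hA]
    have e3 : (M.filter (fun k => y k = true)).card + (M.filter (fun k => y k = false)).card = M.card := by
      rw [← card_filter_add_card_filter_not (s := M) (fun k => y k = true)]
      simp
    omega

end assign

section two

variable {V E : Type*} [DecidableEq V] [DecidableEq E] {K : ℕ}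

/-- subdividing an edge, the two new edges have new names -/
lemma subd2 {ends ends' : E → Sym2 V} {S : Finset V} {W : Finset E} (h : Tr ends' S W) {v a b : V} (hv : v ∉ S)
    {d x z : E} (hd : d ∈ W) (hx : x ∉ W.erase d) (hz : z ∉ W.erase d) (hxz : x ≠ z) (hab : ends' d = s(a, b))
    (hag : ∀ f ∈ W.erase d, ends f = ends' f) (ha : ends x = s(v, a)) (hb : ends z = s(v, b)) :
    Tr ends (insert v S) (insert z (insert x (W.erase d))) := by
  have haS : a ∈ S := h.ins d hd a (by rw [hab]; exact Sym2.mem_mk_left a b)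
  have hbS : b ∈ S := h.ins d hd b (by rw [hab]; exact Sym2.mem_mk_right a b)
  have hav : a ≠ v := by rintro rfl; exact hv haS
  have hbv : b ≠ v := by rintro rfl; exact hv hbS
  refine ⟨?_, ?_, ?_⟩
  · intro e he y hy
    rcases mem_insert.1 he with rfl | he
    · rw [hb] at hy
      rcases Sym2.mem_iff.1 hy with rfl | rfl
      · exact mem_insert_self _ _
      · exact mem_insert_of_mem hbS
    · rcases mem_insert.1 he with rfl | he
      · rw [ha] at hy
        rcases Sym2.mem_iff.1 hy with rfl | rfl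
        · exact mem_insert_self _ _
        · exact mem_insert_of_mem haS
      · exact mem_insert_of_mem (h.ins e (mem_of_mem_erase he) y (by rw [← hag e he]; exact hy))
  · intro A hA hn hS
    rcases cases3 hv hA hn hS with ⟨k1, k2, k3⟩ | ⟨k1, k2⟩ | ⟨k1, k2⟩
    · obtain ⟨e, he, hcr⟩ := h.con _ k1 k2 k3
      by_cases hee : e = d
      · subst hee
        rw [cr_mk hab] at hcr
        simp only [mem_erase, ne_eq, hav, not_false_eq_true, true_and, hbv] at hcr
        by_cases hvA : v ∈ A
        · rcases hcr with ⟨_, h'⟩ | ⟨_, h'⟩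
          · exact ⟨z, mem_insert_self _ _, (cr_mk hb).2 (Or.inl ⟨hvA, h'⟩)⟩
          · exact ⟨x, mem_insert_of_mem (mem_insert_self _ _), (cr_mk ha).2 (Or.inl ⟨hvA, h'⟩)⟩
        · rcases hcr with ⟨h', _⟩ | ⟨h', _⟩
          · exact ⟨x, mem_insert_of_mem (mem_insert_self _ _), (cr_mk ha).2 (Or.inr ⟨h', hvA⟩)⟩
          · exact ⟨z, mem_insert_self _ _, (cr_mk hb).2 (Or.inr ⟨h', hvA⟩)⟩
      · obtain ⟨p, q, hpq, hp, hq⟩ := hcr
        have hqS : q ∈ S := h.ins e he q (by rw [hpq]; exact Sym2.mem_mk_right p q)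
        have heW : e ∈ W.erase d := mem_erase.2 ⟨hee, he⟩
        refine ⟨e, mem_insert_of_mem (mem_insert_of_mem heW), p, q, by rw [hag e heW, hpq],
          mem_of_mem_erase hp, fun hq' => hq (mem_erase.2 ⟨?_, hq'⟩)⟩
        rintro rfl
        exact hv hqS
    · exact ⟨x, mem_insert_of_mem (mem_insert_self _ _), (cr_mk ha).2 (Or.inl ⟨k1, k2 a haS⟩)⟩
    · exact ⟨x, mem_insert_of_mem (mem_insert_self _ _), (cr_mk ha).2 (Or.inr ⟨k2 a haS, k1⟩)⟩
  · have hz' : z ∉ insert x (W.erase d) := by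
      rw [mem_insert]
      rintro (h' | h')
      · exact hxz h'.symm
      · exact hz h'
    rw [card_insert_of_notMem hz', card_insert_of_notMem hx, card_insert_of_notMem hv, card_erase_of_mem hd, ← h.card]
    have := card_pos.2 ⟨d, hd⟩
    omega

/-- a tree has no parallel edges -/
lemma no_par {ends : E → Sym2 V} {S : Finset V} {F : Finset E} (h : Tr ends S F) {e f : E} (he : e ∈ F)
    (hf : f ∈ F) (hef : ends e = ends f) : e = f := by
  by_contra hne
  obtain ⟨A, hA, hn, hS, hc⟩ := cut h he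
  obtain ⟨g, hg, hg'⟩ := h.con A hA hn hS
  by_cases hge : g = e
  · subst hge
    obtain ⟨x, y, hxy, hx, hy⟩ := hg'
    exact hc f (mem_erase.2 ⟨fun h' => hne h'.symm, hf⟩) ⟨x, y, by rw [← hef, hxy], hx, hy⟩
  · exact hc g (mem_erase.2 ⟨hge, hg⟩) hg'

omit [DecidableEq V] in
/-- an edge is in one row only -/
lemma row_unique [NeZero K] {L : List (ZMod K → E)} {U : Finset E}
    (hU : ∀ e, e ∈ U ↔ ∃ c ∈ L, ∃ k, c k = e) (hc : U.card = K * L.length) {c c' : ZMod K → E} {k k' : ZMod K}
    (h1 : c ∈ L) (h2 : c' ∈ L) (h : c k = c' k') : k = k' := by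
  obtain ⟨A, B, rfl⟩ := List.append_of_mem h1
  obtain ⟨hA, hB, hinj⟩ := cols_ne hU hc rfl
  rcases List.mem_append.1 h2 with h' | h'
  · exact absurd h.symm (hA _ h' _ _)
  · rcases List.mem_cons.1 h' with rfl | h'
    · exact hinj h
    · exact absurd h.symm (hB _ h' _ _)

/-- insertion of a vertex with two neighbours -/
lemma ord_two [NeZero K] {ends ends' : E → Sym2 V} {S : Finset V} {U' U D Ea Eb : Finset E} {v a b : V}
    (hO : Ord K ends' S U') (hcard : U'.card = K * (S.card - 1)) (hv : v ∉ S) (haS : a ∈ S) (hbS : b ∈ S)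
    (hD : ∀ e ∈ D, e ∈ U' ∧ ends' e = s(a, b)) (hDa : D ⊆ Ea)
    (hEa : ∀ e ∈ Ea, ends e = s(v, a)) (hEb : ∀ e ∈ Eb, ends e = s(v, b)) (hdisj : Disjoint Ea Eb)
    (hna : ∀ e ∈ Ea, e ∈ U' → e ∈ D) (hnb : ∀ e ∈ Eb, e ∉ U')
    (hag : ∀ e ∈ U', e ∉ D → ends e = ends' e) (hp : Ea.card ≤ K) (hsum : Ea.card + Eb.card = K + D.card)
    (hU : ∀ e, e ∈ U ↔ (e ∈ U' ∧ e ∉ D) ∨ e ∈ Ea ∨ e ∈ Eb) : Ord K ends (insert v S) U := by
  classical
  obtain ⟨L, hL, hm, hw⟩ := hO
  have hcard' : U'.card = K * L.length := by rw [hcard, ← hL, Nat.add_sub_cancel]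
  have hrow := fun (c c' : ZMod K → E) (k k' : ZMod K) (h1 : c ∈ L) (h2 : c' ∈ L) (h : c k = c' k') =>
    row_unique hm hcard' h1 h2 h
  have hsub : ∀ q L1 L2, L = L1 ++ L2 → ∀ e ∈ win q L1 L2, e ∈ U' := by
    intro q L1 L2 hLL e he
    rw [hm]
    rcases mem_win.1 he with ⟨c, hc, rfl⟩ | ⟨c, hc, rfl⟩
    · exact ⟨c, by rw [hLL]; exact List.mem_append_left _ hc, _, rfl⟩
    · exact ⟨c, by rw [hLL]; exact List.mem_append_right _ hc, _, rfl⟩
  obtain ⟨M, hM⟩ : ∃ M : Finset (ZMod K), ∀ k, k ∈ M ↔ ∃ c ∈ L, c k ∈ D :=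
    ⟨univ.filter (fun k => ∃ c ∈ L, c k ∈ D), fun k => by simp⟩
  -- each row has at most one of the edges in `D`
  have hone : ∀ k, ∀ c ∈ L, ∀ c' ∈ L, c k ∈ D → c' k ∈ D → c k = c' k := by
    intro k c hc c' hc' h1 h2
    have h3 := hw k [] L rfl
    exact no_par h3 (mem_win.2 (Or.inr ⟨c, hc, rfl⟩)) (mem_win.2 (Or.inr ⟨c', hc', rfl⟩))
      ((hD _ h1).2.trans (hD _ h2).2.symm)
  have hMc : M.card = D.card := by
    have h1 : ∀ k : ZMod K, ∃ d, k ∈ M → d ∈ D ∧ ∃ c ∈ L, c k = d := by
      intro k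
      by_cases hk : k ∈ M
      · obtain ⟨c, hc, hcd⟩ := (hM k).1 hk
        exact ⟨c k, fun _ => ⟨hcd, c, hc, rfl⟩⟩
      · obtain ⟨c, _, _⟩ : ∃ c, c = c ∧ True := ⟨k, rfl, trivial⟩
        by_cases hne : Nonempty E
        · exact ⟨Classical.choice hne, fun h => absurd h hk⟩
        · exact absurd (by
            rcases Nat.eq_zero_or_pos (Ea.card + Eb.card) with h0 | h0
            · have := NeZero.pos K
              omega
            · by_contra _
              have h2 : Ea = ∅ := eq_empty_of_forall_notMem fun e _ => hne ⟨e⟩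
              have h3 : Eb = ∅ := eq_empty_of_forall_notMem fun e _ => hne ⟨e⟩
              rw [h2, h3] at h0
              simp at h0) hne
    choose δ hδ using h1
    refine card_bij (fun k _ => δ k) (fun k hk => (hδ k hk).1) (fun k hk k' hk' h => ?_) (fun d hd => ?_)
    · obtain ⟨_, c, hc, hcd⟩ := hδ k hk
      obtain ⟨_, c', hc', hcd'⟩ := hδ k' hk'
      exact hrow c c' k k' hc hc' (hcd.trans (h.trans hcd'.symm))
    · obtain ⟨c, hc, k, hk⟩ := (hm d).1 (hD d hd).1
      have hkM : k ∈ M := (hM k).2 ⟨c, hc, by rw [hk]; exact hd⟩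
      obtain ⟨h1, c', hc', hcd'⟩ := hδ k hkM
      refine ⟨k, hkM, ?_⟩
      rw [← hcd', ← hk]
      exact hone k c' hc' c hc (by rw [hcd']; exact h1) (by rw [hk]; exact hd)
  obtain ⟨y, hy1, hy2⟩ := assign M Ea.card (by rw [hMc]; exact card_le_card hDa) hp
  -- the places
  let Sa : Finset (ZMod K × Bool) := (univ.filter (fun k => y k = true)).image (fun k => (k, false)) ∪
    (M.filter (fun k => y k = false)).image (fun k => (k, true))
  let Sb : Finset (ZMod K × Bool) := (univ.filter (fun k => y k = false)).image (fun k => (k, false)) ∪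
    (M.filter (fun k => y k = true)).image (fun k => (k, true))
  have hinj : ∀ b : Bool, Function.Injective (fun k : ZMod K => (k, b)) := fun b k k' h => (Prod.ext_iff.1 h).1
  have hcu : ∀ (A B : Finset (ZMod K)), (A.image (fun k => (k, false)) ∪ B.image (fun k => (k, true))).card =
      A.card + B.card := by
    intro A B
    rw [card_union_of_disjoint, card_image_of_injective _ (hinj false), card_image_of_injective _ (hinj true)]
    rw [disjoint_left]
    intro z hz hz'
    obtain ⟨k, _, rfl⟩ := mem_image.1 hz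
    obtain ⟨k', _, h⟩ := mem_image.1 hz'
    simp at h
  have hSa : Sa.card = Ea.card := by rw [← hy2]; exact hcu _ _
  have hSb : Sb.card = Eb.card := by
    have h1 : Sb.card = (univ.filter (fun k => y k = false)).card + (M.filter (fun k => y k = true)).card := hcu _ _
    have h2 : (univ.filter (fun k => y k = true)).card + (univ.filter (fun k => y k = false)).card = K := by
      have := card_filter_add_card_filter_not (s := (univ : Finset (ZMod K))) (fun k => y k = true)
      simp only [Bool.not_eq_true] at this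
      rw [this, card_univ, ZMod.card]
    have h3 : (M.filter (fun k => y k = true)).card + (M.filter (fun k => y k = false)).card = M.card := by
      have := card_filter_add_card_filter_not (s := M) (fun k => y k = true)
      simp only [Bool.not_eq_true] at this
      exact this
    omega
  have hSd : ∀ z, z ∈ Sa → z ∈ Sb → False := by
    intro z hz hz'
    rcases mem_union.1 hz with hz | hz <;> rcases mem_union.1 hz' with hz' | hz' <;>
      obtain ⟨k, hk, rfl⟩ := mem_image.1 hz <;> obtain ⟨k', hk', h⟩ := mem_image.1 hz' <;>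
      simp only [Prod.mk.injEq] at h <;> simp_all
  have hga : ∃ g : ZMod K × Bool → E, (∀ z ∈ Sa, g z ∈ Ea) ∧ (∀ e ∈ Ea, ∃ z ∈ Sa, g z = e) ∧
      (∀ z ∈ Sb, g z ∈ Eb) ∧ (∀ e ∈ Eb, ∃ z ∈ Sb, g z = e) ∧
      ∀ z ∈ Sa ∪ Sb, ∀ z' ∈ Sa ∪ Sb, g z = g z' → z = z' := by
    have ea := equivOfCardEq hSa
    have eb := equivOfCardEq hSb
    have hne : Nonempty E := by
      by_contra hne
      have h2 : Ea = ∅ := eq_empty_of_forall_notMem fun e _ => hne ⟨e⟩
      have h3 : Eb = ∅ := eq_empty_of_forall_notMem fun e _ => hne ⟨e⟩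
      rw [h2, h3] at hsum
      have := NeZero.pos K
      simp at hsum
      omega
    obtain ⟨g, hg⟩ : ∃ g : ZMod K × Bool → E, ∀ z, g z = if h : z ∈ Sa then (ea ⟨z, h⟩ : E) else
        if h' : z ∈ Sb then (eb ⟨z, h'⟩ : E) else Classical.choice hne := ⟨_, fun z => rfl⟩
    have hg1 : ∀ z (h : z ∈ Sa), g z = ea ⟨z, h⟩ := fun z h => by rw [hg, dif_pos h]
    have hg2 : ∀ z (h : z ∈ Sb), g z = eb ⟨z, h⟩ := fun z h => by
      rw [hg, dif_neg (fun h' => hSd z h' h), dif_pos h]
    have k1 : ∀ z ∈ Sa, g z ∈ Ea := fun z h => by rw [hg1 z h]; exact (ea ⟨z, h⟩).2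
    have k2 : ∀ z ∈ Sb, g z ∈ Eb := fun z h => by rw [hg2 z h]; exact (eb ⟨z, h⟩).2
    refine ⟨g, k1, fun e he => ⟨(ea.symm ⟨e, he⟩ : _), (ea.symm ⟨e, he⟩).2, ?_⟩, k2,
      fun e he => ⟨(eb.symm ⟨e, he⟩ : _), (eb.symm ⟨e, he⟩).2, ?_⟩, fun z hz z' hz' h => ?_⟩
    · rw [hg1 _ (ea.symm ⟨e, he⟩).2]
      simp
    · rw [hg2 _ (eb.symm ⟨e, he⟩).2]
      simp
    · rcases mem_union.1 hz with hz | hz <;> rcases mem_union.1 hz' with hz' | hz'
      · rw [hg1 z hz, hg1 z' hz'] at h
        exact congrArg Subtype.val (ea.injective (Subtype.ext h))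
      · exact absurd h (fun h => disjoint_left.1 hdisj (k1 z hz) (by rw [h]; exact k2 z' hz'))
      · exact absurd h (fun h => disjoint_left.1 hdisj (k1 z' hz') (by rw [← h]; exact k2 z hz))
      · rw [hg2 z hz, hg2 z' hz'] at h
        exact congrArg Subtype.val (eb.injective (Subtype.ext h))
  obtain ⟨g, ga1, ga2, gb1, gb2, ginj⟩ := hga
  have hfa : ∀ k, y k = true → (k, false) ∈ Sa := fun k hk =>
    mem_union_left _ (mem_image.2 ⟨k, mem_filter.2 ⟨mem_univ _, hk⟩, rfl⟩)
  have hfb : ∀ k, y k = false → (k, false) ∈ Sb := fun k hk =>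
    mem_union_left _ (mem_image.2 ⟨k, mem_filter.2 ⟨mem_univ _, hk⟩, rfl⟩)
  have hta : ∀ k ∈ M, y k = false → (k, true) ∈ Sa := fun k hk hk' =>
    mem_union_right _ (mem_image.2 ⟨k, mem_filter.2 ⟨hk, hk'⟩, rfl⟩)
  have htb : ∀ k ∈ M, y k = true → (k, true) ∈ Sb := fun k hk hk' =>
    mem_union_right _ (mem_image.2 ⟨k, mem_filter.2 ⟨hk, hk'⟩, rfl⟩)
  have hSM : ∀ k, (k, true) ∈ Sa ∪ Sb → k ∈ M := by
    intro k hk
    rcases mem_union.1 hk with hk | hk <;> rcases mem_union.1 hk with hk | hk <;>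
      obtain ⟨k', hk', h⟩ := mem_image.1 hk
    · simp at h
    · have h5 : k' = k := congrArg Prod.fst h
      rw [← h5]
      exact (mem_filter.1 hk').1
    · simp at h
    · have h5 : k' = k := congrArg Prod.fst h
      rw [← h5]
      exact (mem_filter.1 hk').1
  have hgf : ∀ k, g (k, false) ∈ Ea ∨ g (k, false) ∈ Eb := by
    intro k
    rcases Bool.eq_false_or_eq_true (y k) with hk | hk
    · exact Or.inl (ga1 _ (hfa k hk))
    · exact Or.inr (gb1 _ (hfb k hk))
  have hgt : ∀ k ∈ M, g (k, true) ∈ Ea ∨ g (k, true) ∈ Eb := by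
    intro k hkM
    rcases Bool.eq_false_or_eq_true (y k) with hk | hk
    · exact Or.inr (gb1 _ (htb k hkM hk))
    · exact Or.inl (ga1 _ (hta k hkM hk))
  have hnew : ∀ e, (e ∈ Ea ∨ e ∈ Eb) → e ∈ U' → e ∈ D := by
    rintro e (h | h) h'
    · exact hna e h h'
    · exact absurd h' (hnb e h)
  -- the replaced columns
  obtain ⟨ρ, hρ⟩ : ∃ ρ : (ZMod K → E) → ZMod K → E, ∀ c k, ρ c k = if c k ∈ D then g (k, true) else c k :=
    ⟨fun c k => if c k ∈ D then g (k, true) else c k, fun _ _ => rfl⟩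
  -- the windows
  have key : ∀ q L1 L2, L = L1 ++ L2 → ∀ k0, (∀ k ∈ M, (∃ d ∈ D, d ∈ win q L1 L2 ∧ ∃ c ∈ L, c k = d) → y k0 = y k) →
      Tr ends (insert v S) (insert (g (k0, false)) (win q (L1.map ρ) (L2.map ρ))) := by
    intro q L1 L2 hLL k0 hk0
    have hT := hw q L1 L2 hLL
    have hWU := hsub q L1 L2 hLL
    by_cases hex : ∃ d ∈ D, d ∈ win q L1 L2
    · obtain ⟨d, hd, hdW⟩ := hex
      obtain ⟨c, hc, r, hcr⟩ := (hm d).1 (hD d hd).1
      have hrM : r ∈ M := (hM r).2 ⟨c, hc, by rw [hcr]; exact hd⟩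
      have hyr := hk0 r hrM ⟨d, hd, hdW, c, hc, hcr⟩
      have honly : ∀ f ∈ win q L1 L2, f ∈ D → f = d := fun f hf hfD =>
        no_par hT hf hdW ((hD f hfD).2.trans (hD d hd).2.symm)
      have hset : win q (L1.map ρ) (L2.map ρ) = insert (g (r, true)) ((win q L1 L2).erase d) := by
        ext e
        rw [mem_win, mem_insert, mem_erase, mem_win]
        constructor
        · rintro (⟨c', hc', rfl⟩ | ⟨c', hc', rfl⟩)
          · obtain ⟨c1, hc1, rfl⟩ := List.mem_map.1 hc'
            rw [hρ]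
            have hcW : c1 (q + 1) ∈ win q L1 L2 := mem_win.2 (Or.inl ⟨c1, hc1, rfl⟩)
            split_ifs with hcD
            · left
              have h1 := honly _ hcW hcD
              have h2 := hrow c1 c (q + 1) r (by rw [hLL]; exact List.mem_append_left _ hc1) hc (h1.trans hcr.symm)
              rw [h2]
            · right
              refine ⟨fun h' => hcD (by rw [h']; exact hd), Or.inl ⟨c1, hc1, rfl⟩⟩
          · obtain ⟨c1, hc1, rfl⟩ := List.mem_map.1 hc'
            rw [hρ]
            have hcW : c1 q ∈ win q L1 L2 := mem_win.2 (Or.inr ⟨c1, hc1, rfl⟩)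
            split_ifs with hcD
            · left
              have h1 := honly _ hcW hcD
              have h2 := hrow c1 c q r (by rw [hLL]; exact List.mem_append_right _ hc1) hc (h1.trans hcr.symm)
              rw [h2]
            · right
              refine ⟨fun h' => hcD (by rw [h']; exact hd), Or.inr ⟨c1, hc1, rfl⟩⟩
        · rintro (rfl | ⟨hed, hh⟩)
          · rcases mem_win.1 hdW with ⟨c1, hc1, h1⟩ | ⟨c1, hc1, h1⟩
            · have h2 := hrow c1 c (q + 1) r (by rw [hLL]; exact List.mem_append_left _ hc1) hc (h1.trans hcr.symm)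
              exact Or.inl ⟨ρ c1, List.mem_map_of_mem hc1, by rw [hρ, if_pos (by rw [h1]; exact hd), h2]⟩
            · have h2 := hrow c1 c q r (by rw [hLL]; exact List.mem_append_right _ hc1) hc (h1.trans hcr.symm)
              exact Or.inr ⟨ρ c1, List.mem_map_of_mem hc1, by rw [hρ, if_pos (by rw [h1]; exact hd), h2]⟩
          · rcases hh with ⟨c1, hc1, h1⟩ | ⟨c1, hc1, h1⟩
            · refine Or.inl ⟨ρ c1, List.mem_map_of_mem hc1, ?_⟩
              rw [hρ, if_neg, h1]
              rw [h1]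
              exact fun h' => hed (honly _ (mem_win.2 (Or.inl ⟨c1, hc1, h1⟩)) h')
            · refine Or.inr ⟨ρ c1, List.mem_map_of_mem hc1, ?_⟩
              rw [hρ, if_neg, h1]
              rw [h1]
              exact fun h' => hed (honly _ (mem_win.2 (Or.inr ⟨c1, hc1, h1⟩)) h')
      rw [hset]
      have hnot : ∀ e, (e ∈ Ea ∨ e ∈ Eb) → e ∉ (win q L1 L2).erase d := by
        intro e he h'
        have h1 := hWU e (mem_of_mem_erase h')
        exact (ne_of_mem_erase h') (honly e (mem_of_mem_erase h') (hnew e he h1))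
      have hag' : ∀ f ∈ (win q L1 L2).erase d, ends f = ends' f := by
        intro f hf
        exact hag f (hWU f (mem_of_mem_erase hf)) (fun h' => (ne_of_mem_erase hf) (honly f (mem_of_mem_erase hf) h'))
      rcases Bool.eq_false_or_eq_true (y k0) with hk | hk
      · -- the new edge goes to `a`, the replaced one to `b`
        have h1 := ga1 _ (hfa k0 hk)
        have h2 := gb1 _ (htb r hrM (by rw [← hyr]; exact hk))
        rw [Finset.insert_comm]
        exact subd2 hT hv hdW (hnot _ (Or.inl h1)) (hnot _ (Or.inr h2))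
          (fun h' => disjoint_left.1 hdisj h1 (by rw [h']; exact h2)) (hD d hd).2 hag' (hEa _ h1) (hEb _ h2)
      · have h1 := gb1 _ (hfb k0 hk)
        have h2 := ga1 _ (hta r hrM (by rw [← hyr]; exact hk))
        exact subd2 hT hv hdW (hnot _ (Or.inl h2)) (hnot _ (Or.inr h1))
          (fun h' => disjoint_left.1 hdisj h2 (by rw [h']; exact h1)) (hD d hd).2 hag' (hEa _ h2) (hEb _ h1)
    · have hno : ∀ f ∈ win q L1 L2, f ∉ D := fun f hf hfD => hex ⟨f, hfD, hf⟩
      have hset : win q (L1.map ρ) (L2.map ρ) = win q L1 L2 := by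
        ext e
        rw [mem_win, mem_win]
        constructor
        · rintro (⟨c', hc', rfl⟩ | ⟨c', hc', rfl⟩)
          · obtain ⟨c1, hc1, rfl⟩ := List.mem_map.1 hc'
            refine Or.inl ⟨c1, hc1, ?_⟩
            rw [hρ, if_neg (hno _ (mem_win.2 (Or.inl ⟨c1, hc1, rfl⟩)))]
          · obtain ⟨c1, hc1, rfl⟩ := List.mem_map.1 hc'
            refine Or.inr ⟨c1, hc1, ?_⟩
            rw [hρ, if_neg (hno _ (mem_win.2 (Or.inr ⟨c1, hc1, rfl⟩)))]
        · rintro (⟨c1, hc1, rfl⟩ | ⟨c1, hc1, rfl⟩)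
          · refine Or.inl ⟨ρ c1, List.mem_map_of_mem hc1, ?_⟩
            rw [hρ, if_neg (hno _ (mem_win.2 (Or.inl ⟨c1, hc1, rfl⟩)))]
          · refine Or.inr ⟨ρ c1, List.mem_map_of_mem hc1, ?_⟩
            rw [hρ, if_neg (hno _ (mem_win.2 (Or.inr ⟨c1, hc1, rfl⟩)))]
      rw [hset]
      have hTe : Tr ends S (win q L1 L2) := tr_congr hT fun f hf => hag f (hWU f hf) (hno f hf)
      rcases hgf k0 with h1 | h1
      · exact leaf hTe hv (fun h' => hno _ h' (hnew _ (Or.inl h1) (hWU _ h'))) haS (hEa _ h1)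
      · exact leaf hTe hv (fun h' => hno _ h' (hnew _ (Or.inr h1) (hWU _ h'))) hbS (hEb _ h1)
  refine ⟨(fun k => g (k, false)) :: L.map ρ, ?_, ?_, ?_⟩
  · rw [List.length_cons, List.length_map, card_insert_of_notMem hv, hL]
  · intro e
    rw [hU]
    constructor
    · rintro (⟨h1, h2⟩ | h | h)
      · obtain ⟨c, hc, k, hk⟩ := (hm e).1 h1
        refine ⟨ρ c, List.mem_cons_of_mem _ (List.mem_map_of_mem hc), k, ?_⟩
        rw [hρ, if_neg (by rw [hk]; exact h2), hk]
      · obtain ⟨⟨k, t⟩, hz, hzk⟩ := ga2 e h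
        cases t
        · exact ⟨_, List.mem_cons_self, k, hzk⟩
        · obtain ⟨c, hc, hcD⟩ := (hM k).1 (hSM k (mem_union_left _ hz))
          refine ⟨ρ c, List.mem_cons_of_mem _ (List.mem_map_of_mem hc), k, ?_⟩
          rw [hρ, if_pos hcD, hzk]
      · obtain ⟨⟨k, t⟩, hz, hzk⟩ := gb2 e h
        cases t
        · exact ⟨_, List.mem_cons_self, k, hzk⟩
        · obtain ⟨c, hc, hcD⟩ := (hM k).1 (hSM k (mem_union_right _ hz))
          refine ⟨ρ c, List.mem_cons_of_mem _ (List.mem_map_of_mem hc), k, ?_⟩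
          rw [hρ, if_pos hcD, hzk]
    · rintro ⟨c', hc', k, rfl⟩
      rcases List.mem_cons.1 hc' with rfl | hc'
      · exact Or.inr (hgf k)
      · obtain ⟨c, hc, rfl⟩ := List.mem_map.1 hc'
        rw [hρ]
        split_ifs with hcD
        · exact Or.inr (hgt k ((hM k).2 ⟨c, hc, hcD⟩))
        · exact Or.inl ⟨(hm _).2 ⟨c, hc, k, rfl⟩, hcD⟩
  · intro q L1 L2 hLL
    rcases L1 with _ | ⟨c, L1⟩
    · rw [List.nil_append] at hLL
      subst hLL
      have h1 : win q [] ((fun k => g (k, false)) :: L.map ρ) = insert (g (q, false)) (win q (([] : List (ZMod K → E)).map ρ) (L.map ρ)) := by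
        ext e
        simp [win]
      rw [h1]
      refine key q [] L rfl q ?_
      rintro k hk ⟨d, hd, hdW, c, hc, hcd⟩
      rcases mem_win.1 hdW with ⟨c1, hc1, _⟩ | ⟨c1, hc1, h2⟩
      · simp at hc1
      · rw [hrow c1 c q k hc1 hc (h2.trans hcd.symm)]
    · rw [List.cons_append, List.cons.injEq] at hLL
      obtain ⟨rfl, hLL⟩ := hLL
      obtain ⟨l1, l2, hl, rfl, rfl⟩ := List.map_eq_append_iff.1 hLL
      have h1 : win q ((fun k => g (k, false)) :: l1.map ρ) (l2.map ρ) =
          insert (g (q + 1, false)) (win q (l1.map ρ) (l2.map ρ)) := by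
        ext e
        simp [win]
      rw [h1]
      refine key q l1 l2 hl (q + 1) ?_
      rintro k hk ⟨d, hd, hdW, c, hc, hcd⟩
      rcases mem_win.1 hdW with ⟨c1, hc1, h2⟩ | ⟨c1, hc1, h2⟩
      · rw [hrow c1 c (q + 1) k (by rw [hl]; exact List.mem_append_left _ hc1) hc (h2.trans hcd.symm)]
      · have h3 := hrow c1 c q k (by rw [hl]; exact List.mem_append_right _ hc1) hc (h2.trans hcd.symm)
        rw [h3]
        exact hy1 k hk

end two

end Pool.Agent.helper57.FLD
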