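import Pool.Agent.helper57.FLD.G

/-!
# Removing a vertex with two neighbours; elimination orders
-/

set_option autoImplicit false

namespace Pool.Agent.helper57.FLD

open Finset

variable {V E : Type*} [DecidableEq V] [DecidableEq E] {K : ℕ}

lemma filter_un [NeZero K] {ends : E → Sym2 V} {S : Finset V} {T : ZMod K → Finset E} (h : Inst ends S T)
    (P : E → Prop) [DecidablePred P] : ((un T).filter P).card = ∑ i, ((T i).filter P).card := by
  unfold un
  rw [filter_biUnion, card_biUnion]
  intro i _ j _ hij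
  exact (h.2 i j hij).mono (filter_subset _ _) (filter_subset _ _)

/-- the reduction for a vertex with two neighbours -/
lemma step2 [NeZero K] {ends : E → Sym2 V} {S : Finset V} {T : ZMod K → Finset E} (h : Inst ends S T)
    {v a b : V} (hv : v ∈ S) (hS : 2 ≤ S.card) (haS : a ∈ S.erase v) (hbS : b ∈ S.erase v) (hab : a ≠ b)
    (hN : ∀ e ∈ un T, v ∈ ends e → ends e = s(v, a) ∨ ends e = s(v, b)) :
    ∃ (ends' : E → Sym2 V) (T' : ZMod K → Finset E), Inst ends' (S.erase v) T' ∧
      (∀ w ∈ S.erase v, dg ends' (un T') w ≤ dg ends (un T) w) ∧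
      (∀ e ∈ un T', (e ∈ un T ∧ ends' e = ends e) ∨ ∃ a b, ends' e = s(a, b) ∧
        (∃ f ∈ un T, ends f = s(v, a)) ∧ ∃ f ∈ un T, ends f = s(v, b)) ∧
      (Ord K ends' (S.erase v) (un T') → Ord K ends S (un T)) := by
  classical
  have hSv : insert v (S.erase v) = S := insert_erase hv
  have hvS : v ∉ S.erase v := notMem_erase _ _
  have hav : a ≠ v := ne_of_mem_erase haS
  have hbv : b ≠ v := ne_of_mem_erase hbS
  have hsab : s(v, a) ≠ s(v, b) := by
    intro h'
    rcases Sym2.eq_iff.1 h' with ⟨_, h'⟩ | ⟨h', _⟩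
    · exact hab h'
    · exact hbv h'.symm
  have hdis : ∀ i j e, e ∈ T i → e ∈ T j → i = j := by
    intro i j e hi hj
    by_contra hij
    exact disjoint_left.1 (h.2 i j hij) hi hj
  have hTu : ∀ i e, e ∈ T i → e ∈ un T := fun i e he => mem_un.2 ⟨i, he⟩
  have hva : ∀ e, ends e = s(v, a) → v ∈ ends e := fun e he => by rw [he]; exact Sym2.mem_mk_left _ _
  have hvb : ∀ e, ends e = s(v, b) → v ∈ ends e := fun e he => by rw [he]; exact Sym2.mem_mk_left _ _
  obtain ⟨D, hD⟩ : ∃ D : Finset E, ∀ e, e ∈ D ↔ ∃ i, e ∈ T i ∧ ends e = s(v, a) ∧ ∃ f ∈ T i, ends f = s(v, b) := by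
    refine ⟨(un T).filter (fun e => ∃ i, e ∈ T i ∧ ends e = s(v, a) ∧ ∃ f ∈ T i, ends f = s(v, b)), fun e => ?_⟩
    rw [mem_filter]
    constructor
    · exact fun h' => h'.2
    · rintro ⟨i, hi, h'⟩
      exact ⟨hTu i e hi, i, hi, h'⟩
  obtain ⟨ends', hends'⟩ : ∃ ends' : E → Sym2 V, ∀ e, ends' e = if e ∈ D then s(a, b) else ends e := ⟨_, fun _ => rfl⟩
  obtain ⟨T', hT'⟩ : ∃ T' : ZMod K → Finset E, ∀ i e, e ∈ T' i ↔ e ∈ T i ∧ (e ∈ D ∨ v ∉ ends e) :=
    ⟨fun i => (T i).filter (fun e => e ∈ D ∨ v ∉ ends e), fun i e => mem_filter⟩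
  -- one tree
  have hcase : ∀ i, (∃ e1 ∈ T i, ∃ e2 ∈ T i, ends e1 = s(v, a) ∧ ends e2 = s(v, b)) ∨
      ((∀ e ∈ T i, e ∉ D) ∧ ∃ u ∈ T i, v ∈ ends u ∧ ∀ e ∈ T i, v ∈ ends e → e = u) := by
    intro i
    by_cases hc : ∃ e1 ∈ T i, ∃ e2 ∈ T i, ends e1 = s(v, a) ∧ ends e2 = s(v, b)
    · exact Or.inl hc
    · right
      refine ⟨fun e he heD => ?_, ?_⟩
      · obtain ⟨j, hj, h1, f, hf, h2⟩ := (hD e).1 heD
        obtain rfl := hdis i j e he hj
        exact hc ⟨e, he, f, hf, h1, h2⟩
      · obtain ⟨u, hu⟩ := inc_ne (h.1 i) hv hS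
        obtain ⟨hu1, hu2⟩ := mem_filter.1 hu
        refine ⟨u, hu1, hu2, fun e he hve => ?_⟩
        rcases hN e (hTu i e he) hve with h1 | h1 <;> rcases hN u (hTu i u hu1) hu2 with h2 | h2
        · exact no_par (h.1 i) he hu1 (h1.trans h2.symm)
        · exact absurd ⟨e, he, u, hu1, h1, h2⟩ hc
        · exact absurd ⟨u, hu1, e, he, h2, h1⟩ hc
        · exact no_par (h.1 i) he hu1 (h1.trans h2.symm)
  have htree : ∀ i, Tr ends' (S.erase v) (T' i) := by
    intro i
    rcases hcase i with ⟨e1, he1, e2, he2, h1, h2⟩ | ⟨hno, u, hu, hvu, hall⟩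
    · have h12 : e1 ≠ e2 := by
        rintro rfl
        exact hsab (h1.symm.trans h2)
      have h12' : ∀ e ∈ T i, v ∈ ends e → e = e1 ∨ e = e2 := by
        intro e he hve
        rcases hN e (hTu i e he) hve with h3 | h3
        · exact Or.inl (no_par (h.1 i) he he1 (h3.trans h1.symm))
        · exact Or.inr (no_par (h.1 i) he he2 (h3.trans h2.symm))
      have h3 : Tr (Function.update ends e1 s(a, b)) (S.erase v) ((T i).erase e2) :=
        unsubd hvS (by rw [hSv]; exact h.1 i) he1 he2 h12 (Function.update_self _ _ _)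
          (fun f hf => by rw [Function.update_of_ne hf]) h1 h2 haS hbS h12'
      have h4 : T' i = (T i).erase e2 := by
        ext e
        rw [hT', mem_erase]
        constructor
        · rintro ⟨he, h5⟩
          refine ⟨?_, he⟩
          rintro rfl
          rcases h5 with h5 | h5
          · obtain ⟨_, _, h6, _⟩ := (hD e).1 h5
            exact hsab (h6.symm.trans h2)
          · exact h5 (hvb _ h2)
        · rintro ⟨hee, he⟩
          refine ⟨he, ?_⟩
          by_cases hve : v ∈ ends e
          · rcases h12' e he hve with rfl | h5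
            · exact Or.inl ((hD _).2 ⟨i, he, h1, e2, he2, h2⟩)
            · exact absurd h5 hee
          · exact Or.inr hve
      rw [h4]
      refine tr_congr h3 fun f hf => ?_
      have hfT := mem_of_mem_erase hf
      by_cases hf1 : f = e1
      · subst hf1
        rw [hends', if_pos ((hD _).2 ⟨i, hfT, h1, e2, he2, h2⟩), Function.update_self]
      · rw [Function.update_of_ne hf1, hends', if_neg]
        intro h5
        obtain ⟨_, _, h6, _⟩ := (hD f).1 h5
        exact hf1 (no_par (h.1 i) hfT he1 (h6.trans h1.symm))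
    · obtain ⟨c, _, hc⟩ := other (h.1 i) hu hvu
      have h3 := unleaf hvS (by rw [hSv]; exact h.1 i) hu hc hall
      have h4 : T' i = (T i).erase u := by
        ext e
        rw [hT', mem_erase]
        constructor
        · rintro ⟨he, h5⟩
          refine ⟨?_, he⟩
          rintro rfl
          rcases h5 with h5 | h5
          · exact hno _ he h5
          · exact h5 hvu
        · rintro ⟨hee, he⟩
          exact ⟨he, Or.inr fun hve => hee (hall e he hve)⟩
      rw [h4]
      refine tr_congr h3 fun f hf => ?_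
      rw [hends', if_neg (hno f (mem_of_mem_erase hf))]
  have hI : Inst ends' (S.erase v) T' := by
    refine ⟨htree, fun i j hij => disjoint_left.2 fun e hei hej => ?_⟩
    exact hij (hdis i j e ((hT' i e).1 hei).1 ((hT' j e).1 hej).1)
  have hunT' : ∀ e, e ∈ un T' ↔ e ∈ un T ∧ (e ∈ D ∨ v ∉ ends e) := by
    intro e
    rw [mem_un, mem_un]
    constructor
    · rintro ⟨i, hi⟩
      exact ⟨⟨i, ((hT' i e).1 hi).1⟩, ((hT' i e).1 hi).2⟩
    · rintro ⟨⟨i, hi⟩, h'⟩
      exact ⟨i, (hT' i e).2 ⟨hi, h'⟩⟩
  -- the numbers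
  have hDi : ∀ i, ((T i).filter (fun e => ends e = s(v, a))).card + ((T i).filter (fun e => ends e = s(v, b))).card =
      1 + ((T i).filter (fun e => e ∈ D)).card ∧ ((T i).filter (fun e => ends e = s(v, a))).card ≤ 1 := by
    intro i
    have hle : ∀ z : Sym2 V, ((T i).filter (fun e => ends e = z)).card ≤ 1 := by
      intro z
      rw [card_le_one]
      intro e he f hf
      obtain ⟨he1, he2⟩ := mem_filter.1 he
      obtain ⟨hf1, hf2⟩ := mem_filter.1 hf
      exact no_par (h.1 i) he1 hf1 (he2.trans hf2.symm)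
    refine ⟨?_, hle _⟩
    rcases hcase i with ⟨e1, he1, e2, he2, h1, h2⟩ | ⟨hno, u, hu, hvu, hall⟩
    · have k1 : 1 ≤ ((T i).filter (fun e => ends e = s(v, a))).card := card_pos.2 ⟨e1, mem_filter.2 ⟨he1, h1⟩⟩
      have k2 : 1 ≤ ((T i).filter (fun e => ends e = s(v, b))).card := card_pos.2 ⟨e2, mem_filter.2 ⟨he2, h2⟩⟩
      have k3 := hle s(v, a)
      have k4 := hle s(v, b)
      have k5 : (T i).filter (fun e => e ∈ D) = (T i).filter (fun e => ends e = s(v, a)) := by
        refine filter_congr fun e he => ?_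
        constructor
        · intro h5
          obtain ⟨_, _, h6, _⟩ := (hD e).1 h5
          exact h6
        · exact fun h5 => (hD e).2 ⟨i, he, h5, e2, he2, h2⟩
      rw [k5]
      omega
    · have k0 : (T i).filter (fun e => e ∈ D) = ∅ := filter_eq_empty_iff.2 fun e he => hno e he
      rw [k0, card_empty]
      rcases hN u (hTu i u hu) hvu with h1 | h1
      · have k1 : (T i).filter (fun e => ends e = s(v, a)) = {u} := by
          ext e
          rw [mem_filter, mem_singleton]
          constructor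
          · rintro ⟨he, he'⟩
            exact hall e he (hva e he')
          · rintro rfl
            exact ⟨hu, h1⟩
        have k2 : (T i).filter (fun e => ends e = s(v, b)) = ∅ := filter_eq_empty_iff.2 fun e he he' => by
          have := hall e he (hvb e he')
          rw [this] at he'
          exact hsab (h1.symm.trans he')
        rw [k1, k2]
        simp
      · have k1 : (T i).filter (fun e => ends e = s(v, b)) = {u} := by
          ext e
          rw [mem_filter, mem_singleton]
          constructor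
          · rintro ⟨he, he'⟩
            exact hall e he (hvb e he')
          · rintro rfl
            exact ⟨hu, h1⟩
        have k2 : (T i).filter (fun e => ends e = s(v, a)) = ∅ := filter_eq_empty_iff.2 fun e he he' => by
          have := hall e he (hva e he')
          rw [this] at he'
          exact hsab (he'.symm.trans h1)
        rw [k1, k2]
        simp
  have hDcard : D.card = ∑ i, ((T i).filter (fun e => e ∈ D)).card := by
    rw [← filter_un h (fun e => e ∈ D)]
    congr 1
    ext e
    rw [mem_filter]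
    constructor
    · intro h'
      obtain ⟨i, hi, _⟩ := (hD e).1 h'
      exact ⟨hTu i e hi, h'⟩
    · exact fun h' => h'.2
  have hsum : ((un T).filter (fun e => ends e = s(v, a))).card + ((un T).filter (fun e => ends e = s(v, b))).card =
      K + D.card := by
    rw [filter_un h, filter_un h, hDcard, ← sum_add_distrib, sum_congr rfl (fun i _ => (hDi i).1), sum_add_distrib,
      sum_const, card_univ, ZMod.card, smul_eq_mul, mul_one]
  have hp : ((un T).filter (fun e => ends e = s(v, a))).card ≤ K := by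
    rw [filter_un h]
    calc _ ≤ ∑ _i : ZMod K, 1 := sum_le_sum fun i _ => (hDi i).2
      _ = K := by rw [sum_const, card_univ, ZMod.card, smul_eq_mul, mul_one]
  refine ⟨ends', T', hI, fun w hw => ?_, fun e he => ?_, fun hO => ?_⟩
  · -- degrees
    have hpart : ∀ e, ∃ f, e ∈ D → (∃ i, e ∈ T i ∧ f ∈ T i) ∧ ends f = s(v, b) := by
      intro e
      by_cases he : e ∈ D
      · obtain ⟨i, hi, _, f, hf, hfb⟩ := (hD e).1 he
        exact ⟨f, fun _ => ⟨⟨i, hi, hf⟩, hfb⟩⟩
      · exact ⟨e, fun h' => absurd h' he⟩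
    choose π hπ using hpart
    unfold dg
    refine card_le_card_of_injOn (fun e => if e ∈ D ∧ w = b then π e else e) (fun e he => ?_) (fun e he f hf hef => ?_)
    · obtain ⟨he1, he2⟩ := mem_filter.1 (mem_coe.1 he)
      obtain ⟨he3, he4⟩ := (hunT' e).1 he1
      simp only [coe_filter, Set.mem_ofPred_eq]
      split_ifs with hc
      · obtain ⟨⟨i, _, hi⟩, hb⟩ := hπ e hc.1
        refine ⟨hTu i _ hi, ?_⟩
        rw [hb, hc.2]
        exact Sym2.mem_mk_right _ _
      · refine ⟨he3, ?_⟩
        rw [hends'] at he2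
        split_ifs at he2 with hc'
        · rcases Sym2.mem_iff.1 he2 with rfl | rfl
          · obtain ⟨_, _, h6, _⟩ := (hD e).1 hc'
            rw [h6]
            exact Sym2.mem_mk_right _ _
          · exact absurd ⟨hc', rfl⟩ hc
        · exact he2
    · obtain ⟨he1, _⟩ := mem_filter.1 (mem_coe.1 he)
      obtain ⟨_, he4⟩ := (hunT' e).1 he1
      obtain ⟨hf1, _⟩ := mem_filter.1 (mem_coe.1 hf)
      obtain ⟨_, hf4⟩ := (hunT' f).1 hf1
      simp only at hef
      split_ifs at hef with hc hc' hc'
      · obtain ⟨⟨i, hi1, hi2⟩, _⟩ := hπ e hc.1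
        obtain ⟨⟨j, hj1, hj2⟩, _⟩ := hπ f hc'.1
        rw [hef] at hi2
        obtain rfl := hdis i j _ hi2 hj2
        obtain ⟨_, _, h6, _⟩ := (hD e).1 hc.1
        obtain ⟨_, _, h7, _⟩ := (hD f).1 hc'.1
        exact no_par (h.1 i) hi1 hj1 (h6.trans h7.symm)
      · exfalso
        obtain ⟨_, hb⟩ := hπ e hc.1
        rw [hef] at hb
        rcases hf4 with h8 | h8
        · exact hc' ⟨h8, hc.2⟩
        · exact h8 (hvb _ hb)
      · exfalso
        obtain ⟨_, hb⟩ := hπ f hc'.1
        rw [← hef] at hb
        rcases he4 with h8 | h8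
        · exact hc ⟨h8, hc'.2⟩
        · exact h8 (hvb _ hb)
      · exact hef
  · -- ends
    obtain ⟨he1, he2⟩ := (hunT' e).1 he
    by_cases heD : e ∈ D
    · obtain ⟨i, hi, h6, f, hf, h7⟩ := (hD e).1 heD
      exact Or.inr ⟨a, b, by rw [hends', if_pos heD], ⟨e, he1, h6⟩, f, hTu i f hf, h7⟩
    · exact Or.inl ⟨he1, by rw [hends', if_neg heD]⟩
  · rw [← hSv]
    have hDun : ∀ e ∈ D, e ∈ un T ∧ ends e = s(v, a) := by
      intro e he
      obtain ⟨i, hi, h6, _⟩ := (hD e).1 he
      exact ⟨hTu i e hi, h6⟩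
    refine ord_two (D := D) (Ea := (un T).filter (fun e => ends e = s(v, a)))
      (Eb := (un T).filter (fun e => ends e = s(v, b))) hO (card_un hI) hvS haS hbS (fun e he => ?_) (fun e he => ?_)
      (fun e he => (mem_filter.1 he).2) (fun e he => (mem_filter.1 he).2) ?_ (fun e he he' => ?_) (fun e he he' => ?_)
      (fun e _ heD => ?_) hp hsum (fun e => ?_)
    · exact ⟨(hunT' e).2 ⟨(hDun e he).1, Or.inl he⟩, by rw [hends', if_pos he]⟩
    · exact mem_filter.2 (hDun e he)
    · rw [disjoint_left]
      intro e he he'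
      exact hsab ((mem_filter.1 he).2.symm.trans (mem_filter.1 he').2)
    · rcases ((hunT' e).1 he').2 with h8 | h8
      · exact h8
      · exact absurd (hva e (mem_filter.1 he).2) h8
    · rcases ((hunT' e).1 he').2 with h8 | h8
      · exact hsab ((hDun e h8).2.symm.trans (mem_filter.1 he).2)
      · exact h8 (hvb e (mem_filter.1 he).2)
    · rw [hends', if_neg heD]
    · constructor
      · intro he
        by_cases hve : v ∈ ends e
        · rcases hN e he hve with h8 | h8
          · exact Or.inr (Or.inl (mem_filter.2 ⟨he, h8⟩))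
          · exact Or.inr (Or.inr (mem_filter.2 ⟨he, h8⟩))
        · refine Or.inl ⟨(hunT' e).2 ⟨he, Or.inr hve⟩, fun heD => hve (hva e (hDun e heD).2)⟩
      · rintro (⟨h8, _⟩ | h8 | h8)
        · exact ((hunT' e).1 h8).1
        · exact (mem_filter.1 h8).1
        · exact (mem_filter.1 h8).1

/-- `x` is a neighbour of `v` in `H` which is not eliminated before `v` -/
def Later (H : SimpleGraph V) (B : Finset V) (r : V → ℕ) (v x : V) : Prop := H.Adj v x ∧ (x ∈ B ∨ r v < r x)

open Classical in
/-- elimination orders -/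
theorem elim (hK : 2 ≤ K) [NeZero K] (H : SimpleGraph V) (B : Finset V) (hB : (K - 2) * B.card < 2 * K) (r : V → ℕ)
    (hr : ∀ x y, x ∉ B → y ∉ B → r x = r y → x = y) (n : ℕ) : ∀ (ends : E → Sym2 V) (S : Finset V) (T : ZMod K → Finset E),
    S.card = n + 1 → Inst ends S T → (∀ e ∈ un T, ∀ x y, ends e = s(x, y) → H.Adj x y) →
    (∀ v ∈ S, v ∉ B → ∀ x ∈ S, ∀ y ∈ S, x ≠ y → Later H B r v x → Later H B r v y → H.Adj x y) →
    (∀ v ∈ S, v ∉ B → dg ends (un T) v ≤ K + 1 ∨ (S.filter (Later H B r v)).card ≤ 2) → Ord K ends S (un T) := by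
  induction n with
  | zero =>
    intro ends S T hS h _ _ _
    exact ord_one h hS
  | succ n ih =>
    intro ends S T hS h hE hch hdeg
    by_cases hSB : S ⊆ B
    · refine few hK (n + 1) ends S T hS h (lt_of_le_of_lt ?_ hB)
      exact Nat.mul_le_mul_left _ ((card_filter_le _ _).trans (card_le_card hSB))
    · obtain ⟨v, hv, hmin⟩ : ∃ v ∈ S \ B, ∀ x ∈ S \ B, r v ≤ r x := by
        refine exists_min_image _ _ ?_
        by_contra hcon
        rw [not_nonempty_iff_eq_empty, sdiff_eq_empty_iff_subset] at hcon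
        exact hSB hcon
      obtain ⟨hvS, hvB⟩ := mem_sdiff.1 hv
      have hlater : ∀ e ∈ un T, ∀ x, ends e = s(v, x) → x ∈ S ∧ x ≠ v ∧ Later H B r v x := by
        intro e he x hex
        obtain ⟨i, hi⟩ := mem_un.1 he
        have hxS : x ∈ S := (h.1 i).ins e hi x (by rw [hex]; exact Sym2.mem_mk_right _ _)
        have hadj := hE e he v x hex
        have hne : x ≠ v := hadj.ne.symm
        refine ⟨hxS, hne, hadj, ?_⟩
        by_cases hxB : x ∈ B
        · exact Or.inl hxB
        · right
          refine lt_of_le_of_ne (hmin x (mem_sdiff.2 ⟨hxS, hxB⟩)) fun h' => hne (hr _ _ hvB hxB h').symm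
      have main : ∃ (ends' : E → Sym2 V) (T' : ZMod K → Finset E), Inst ends' (S.erase v) T' ∧
          (∀ w ∈ S.erase v, dg ends' (un T') w ≤ dg ends (un T) w) ∧
          (∀ e ∈ un T', (e ∈ un T ∧ ends' e = ends e) ∨ ∃ a b, ends' e = s(a, b) ∧
            (∃ f ∈ un T, ends f = s(v, a)) ∧ ∃ f ∈ un T, ends f = s(v, b)) ∧
          (Ord K ends' (S.erase v) (un T') → Ord K ends S (un T)) := by
        by_cases hd : dg ends (un T) v ≤ K + 1
        · exact step hK h hvS (by omega) hd
        · have hc := (hdeg v hvS hvB).resolve_left hd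
          have hinS : ∀ e ∈ un T, v ∈ ends e → ∃ x ∈ S.filter (Later H B r v), ends e = s(v, x) := by
            intro e he hve
            obtain ⟨x, hx⟩ := hve
            obtain ⟨h1, _, h2⟩ := hlater e he x hx
            exact ⟨x, mem_filter.2 ⟨h1, h2⟩, hx⟩
          rcases Nat.lt_or_ge (S.filter (Later H B r v)).card 2 with hc1 | hc1
          · exfalso
            apply hd
            rw [dg_un h]
            have : ∀ i, ((T i).filter (fun e => v ∈ ends e)).card ≤ 1 := by
              intro i
              rw [card_le_one]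
              intro e he f hf
              obtain ⟨he1, he2⟩ := mem_filter.1 he
              obtain ⟨hf1, hf2⟩ := mem_filter.1 hf
              obtain ⟨x, hx, hx'⟩ := hinS e (mem_un.2 ⟨i, he1⟩) he2
              obtain ⟨y, hy, hy'⟩ := hinS f (mem_un.2 ⟨i, hf1⟩) hf2
              have hxy : x = y := card_le_one.1 (by omega) x hx y hy
              rw [← hxy] at hy'
              exact no_par (h.1 i) he1 hf1 (hx'.trans hy'.symm)
            calc ∑ i, ((T i).filter (fun e => v ∈ ends e)).card ≤ ∑ _i : ZMod K, 1 := sum_le_sum fun i _ => this i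
              _ = K := by rw [sum_const, card_univ, ZMod.card, smul_eq_mul, mul_one]
              _ ≤ K + 1 := Nat.le_succ _
          · obtain ⟨a, b, hab, hF⟩ := card_eq_two.1 (le_antisymm hc hc1)
            have ha : a ∈ S.filter (Later H B r v) := by rw [hF]; simp
            have hb : b ∈ S.filter (Later H B r v) := by rw [hF]; simp
            refine step2 h hvS (by omega) (mem_erase.2 ⟨(mem_filter.1 ha).2.1.ne.symm, (mem_filter.1 ha).1⟩)
              (mem_erase.2 ⟨(mem_filter.1 hb).2.1.ne.symm, (mem_filter.1 hb).1⟩) hab fun e he hve => ?_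
            obtain ⟨x, hx, hx'⟩ := hinS e he hve
            rw [hF, mem_insert, mem_singleton] at hx
            rcases hx with rfl | rfl
            · exact Or.inl hx'
            · exact Or.inr hx'
      obtain ⟨ends', T', hI, hdle, hE', hO⟩ := main
      refine hO (ih ends' (S.erase v) T' (by rw [card_erase_of_mem hvS]; omega) hI ?_ ?_ ?_)
      · intro e he x y hxy
        rcases hE' e he with ⟨h1, h2⟩ | ⟨a, b, hab, ⟨f, hf, hfa⟩, g, hg, hgb⟩
        · exact hE e h1 x y (by rw [← h2, hxy])
        · obtain ⟨i, hi⟩ := mem_un.1 he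
          have hne : a ≠ b := by
            rintro rfl
            exact no_loop (hI.1 i) hi hab
          obtain ⟨a1, _, a2⟩ := hlater f hf a hfa
          obtain ⟨b1, _, b2⟩ := hlater g hg b hgb
          have hadj := hch v hvS hvB a a1 b b1 hne a2 b2
          rw [hxy] at hab
          rcases Sym2.eq_iff.1 hab with ⟨rfl, rfl⟩ | ⟨rfl, rfl⟩
          · exact hadj
          · exact hadj.symm
      · intro w hw hwB x hx y hy
        exact hch w (mem_of_mem_erase hw) hwB x (mem_of_mem_erase hx) y (mem_of_mem_erase hy)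
      · intro w hw hwB
        rcases hdeg w (mem_of_mem_erase hw) hwB with h1 | h1
        · exact Or.inl ((hdle w hw).trans h1)
        · right
          refine (card_le_card fun x hx => ?_).trans h1
          exact mem_filter.2 ⟨mem_of_mem_erase (mem_filter.1 hx).1, (mem_filter.1 hx).2⟩

end Pool.Agent.helper57.FLD
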