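import Pool.Agent.helper57.FLD.H
import Pool.Agent.helper57.FLD.F

/-!
# Elimination orders, for periodic sequences
-/

set_option autoImplicit false

namespace Pool.Agent.helper57.FLD

open Finset

/-- elimination orders, for periodic sequences -/
theorem elim_final {V E : Type*} [Fintype V] [Finite E] (ends : E → Sym2 V) (hV : 2 ≤ Fintype.card V)
    (K : ℕ) (hK : 2 ≤ K) (T : Fin K → Set E) (hT : ∀ i, ECO.IsSpanningTree ends (T i))
    (hdis : ∀ i j, i ≠ j → Disjoint (T i) (T j)) (B : Set V) (hB : (K - 2) * B.ncard < 2 * K)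
    (r : V → ℕ) (hr : Set.InjOn r Bᶜ) (H : SimpleGraph V)
    (hH : ∀ x ∈ ⋃ i, T i, ∀ u v, ends x = s(u, v) → H.Adj u v) (L : V → Set V)
    (hL : ∀ v, L v = {u | H.Adj v u ∧ (u ∈ B ∨ r v < r u)})
    (hch : ∀ v ∉ B, ∀ a ∈ L v, ∀ b ∈ L v, a ≠ b → H.Adj a b)
    (hdeg : ∀ v ∉ B, {x ∈ ⋃ i, T i | v ∈ ends x}.ncard ≤ K + 1 ∨ (L v).ncard ≤ 2) :
    ∃ e : ℕ → E, (∀ j, e (j + K * (Fintype.card V - 1)) = e j) ∧
      Set.BijOn e (Set.Iio (K * (Fintype.card V - 1))) (⋃ i, T i) ∧
      ∀ j, ECO.IsSpanningTree ends (e '' Set.Ico j (j + (Fintype.card V - 1))) := by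
  classical
  obtain ⟨k, rfl⟩ : ∃ k, K = k + 1 := ⟨K - 1, by omega⟩
  have hfin : ∀ i, (T i).Finite := fun i => Set.toFinite _
  set T' : ZMod (k + 1) → Finset E := fun i => (hfin i).toFinset with hT'
  have hun : (un T' : Set E) = ⋃ i, T i := by
    ext x
    rw [mem_coe, mem_un, Set.mem_iUnion]
    constructor
    · rintro ⟨i, hi⟩
      exact ⟨i, (hfin i).mem_toFinset.1 hi⟩
    · rintro ⟨i, hi⟩
      exact ⟨i, (hfin i).mem_toFinset.2 hi⟩
  have hI : Inst ends univ T' := by
    refine ⟨fun i => tr_of ?_, fun i j hij => ?_⟩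
    · rw [hT', (hfin i).coe_toFinset]
      exact hT i
    · rw [← disjoint_coe, hT', (hfin i).coe_toFinset, (hfin j).coe_toFinset]
      exact hdis i j hij
  obtain ⟨B', hB'⟩ : ∃ B' : Finset V, (B' : Set V) = B := ⟨(Set.toFinite B).toFinset, (Set.toFinite B).coe_toFinset⟩
  subst hB'
  rw [Set.ncard_coe_finset] at hB
  rw [← hun] at hH hdeg ⊢
  have hLv : ∀ v u, u ∈ L v ↔ Later H B' r v u := by
    intro v u
    rw [hL]
    rfl
  refine conv hV hI (elim hK H B' hB r (fun x y hx hy hxy => hr (by simpa using hx) (by simpa using hy) hxy)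
    (Fintype.card V - 1) ends univ T' (by rw [card_univ]; omega) hI (fun e he x y hxy => hH e he x y hxy)
    (fun v _ hv x _ y _ hxy hx hy => hch v (by simpa using hv) x ((hLv v x).2 hx) y ((hLv v y).2 hy) hxy)
    (fun v _ hv => ?_))
  rcases hdeg v (by simpa using hv) with h1 | h1
  · left
    have h2 : ({x ∈ (un T' : Set E) | v ∈ ends x} : Set E) = (((un T').filter (fun e => v ∈ ends e) : Finset E) : Set E) := by
      ext x
      rw [mem_coe, mem_filter, ← mem_coe (s := un T')]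
      rfl
    rw [h2, Set.ncard_coe_finset] at h1
    exact h1
  · right
    have h2 : L v = ((univ.filter (Later H B' r v) : Finset V) : Set V) := by
      ext x
      rw [mem_coe, mem_filter, hLv]
      simp
    rw [h2, Set.ncard_coe_finset] at h1
    exact h1

end Pool.Agent.helper57.FLD
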